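import Pool.Agent.V5helper35.AS.Stm

/-!
# Project AS, part 3: amalgamation along a cyclic subgroup

`F_k * F_l = A *_{w = t} B` with `A = F_k ∋ w` and `B = F_l * ⟨t⟩ = F_{l+1}`, `t` the last generator.
-/

set_option autoImplicit false

namespace Pool.Agent.V5helper35.AS

open Pool.Agent.R387.TC Pool.Agent.N77.CS

/-- `w` is not trivial and not a proper power -/
def NotPow {n : ℕ} (w : F n) : Prop := w ≠ 1 ∧ ∀ (v : F n) (j : ℤ), w = v ^ j → j = 1 ∨ j = -1

/-- the embedding of `B = F_l * ⟨t⟩` in `F_k * F_l` which maps `t` to `w` -/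
def ew {k : ℕ} (l : ℕ) (w : F k) : F (l + 1) →* F (k + l) := homExt (iB k l) (iA k l w)

/-- **CEN** (60 lines).  The centralizer of `w` is `⟨w⟩`.

Proof.  The subgroup generated by `g` and `w` is free (Nielsen-Schreier, in Mathlib: `subgroupIsFreeOfIsFree`) and
commutative, so its basis has at most one element (two different basis elements do not commute: map to a
nonabelian group, or `FreeGroup` reduced words), hence it is cyclic, generated by some `v`: `w = v ^ j`, `g = v ^ i`, and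
`j = ±1`. -/
def S_CEN : Prop := ∀ (n : ℕ) (w : F n), NotPow w → ∀ g : F n, g * w = w * g → ∃ i : ℤ, g = w ^ i

/-- **CYC** (150 lines).  For `w ≠ 1` and `N ≥ 1` the group `F n` acts on a finite set such that `w` has a cycle of
length exactly `N`.

Proof.  We may replace `w` by a conjugate (`z` by `ρ h z`), so `w` is cyclically reduced (Mathlib:
`Mathlib/GroupTheory/FreeGroup/CyclicallyReduced.lean`).  Let `w = l_1 ⋯ l_r` (`r ≥ 1`) and consider the circle with the
vertices `ZMod (N * r)` (or `Fin (N * r)`); the edge from `i` to `i + 1` carries the letter `l_{r - (i mod r)}` (the last letter of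
`w` acts first, so that `ρ w` maps the vertex `0` to `r`, `j r` to `(j + 1) r`).  For every generator `a` this defines
a partial injection `ρ a` on the vertices: `i ↦ i + 1` if the edge from `i` to `i + 1` carries `a`, `i + 1 ↦ i` if it carries
`a⁻¹`; it is well defined and injective because `w` is cyclically reduced (consecutive letters, cyclically, are not inverse
to each other).  A partial injection of a finite set extends to a permutation (`Equiv.extendSubtype`).  So `F n`
acts (`FreeGroup.lift`), and `ρ w` maps `j r` to `(j + 1) r` (induction over the suffixes of `w`); hence the period of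
the vertex `0` under `ρ w` is `N`. -/
def S_CYC : Prop := ∀ (n : ℕ) (w : F n), w ≠ 1 → ∀ N : ℕ, 1 ≤ N →
  ∃ (Z : Type) (_ : Finite Z) (ρ : F n →* Equiv.Perm Z) (z : Z), ((ρ w) ^ N) z = z ∧
    ∀ j : ℕ, 0 < j → j < N → ((ρ w) ^ j) z ≠ z

/-- **POT** (uses CYC; 30 lines).  The order of `w` in finite quotients.

Proof.  Take `ρ` from CYC with `N = e`, `M = core n (Equiv.Perm Z)`: if `w ^ i ∈ M` then `(ρ w) ^ i = 1` fixes `z`, whose period is
`e`, so `e ∣ i`. -/
def S_POT : Prop := ∀ (n : ℕ) (w : F n), w ≠ 1 → ∀ e : ℕ, 1 ≤ e →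
  ∃ M : Subgroup (F n), M.Characteristic ∧ M.FiniteIndex ∧ ∀ i : ℤ, w ^ i ∈ M → (e : ℤ) ∣ i

/-- **GAD** (uses CYC; 150 lines).  `F_k * F_l` induces the full profinite topology on the subgroup
`⟨w⟩ * F_l`.

Proof.  Let `Q = F (l + 1) / KB` and `N` the order of the image `t'` of `tt l` in `Q`.  Take `ρ`, `Z`, `z` from CYC for `w` and
`N`.  Choose a transversal `s : T \ Q → Q` of the right cosets of `T = ⟨t'⟩` (the orbits of the left
multiplication by `T`), so every element of `Q` is `t' ^ j * s c` with a unique `c` and `j` unique modulo `N`.  The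
map `ι : Q → Z × (T \ Q)`, `t' ^ j * s c ↦ (ρ w ^ j z, c)` is well defined and injective.  Let `F_k` act on
`Z × (T \ Q)` by `ρ` on the first factor, and `F_l` by `ι (q) ↦ ι (x̄ q)` on the image of `ι` and trivially
elsewhere (`Equiv.Perm.viaEmbeddingHom`).  This gives `Φ : F (k + l) →* Equiv.Perm (Z × (T \ Q))`
(`Pool.Agent.N77.CS.ASM.hAB`), and `Φ (ew l w x) (ι q) = ι (x̄ * q)` for all `x : F (l + 1)`, `q ∈ Q`: it holds for the
elements of `F_l`, and for `t`: `Φ (iA w) (ρ w ^ j z, c) = (ρ w ^ (j + 1) z, c) = ι (t' * t' ^ j * s c)`.  Let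
`K = core (k + l) (Equiv.Perm (Z × (T \ Q)))`: if `ew l w x ∈ K` then `ι (x̄) = ι 1`, `x ∈ KB`. -/
def S_GAD : Prop := ∀ (k l : ℕ) (w : F k), w ≠ 1 →
  ∀ KB : Subgroup (F (l + 1)), KB.Normal → KB.FiniteIndex →
    ∃ K : Subgroup (F (k + l)), K.Characteristic ∧ K.FiniteIndex ∧
      ∀ x : F (l + 1), ew l w x ∈ K → x ∈ KB

/-- **CW** (uses CEN; 250 lines).  Control of the centralizer of `w` in finite quotients.

Proof.  We may replace `w` by a conjugate `h w h⁻¹` (and `g` by `h g h⁻¹`), so `w` is cyclically reduced, `w = l_1 ⋯ l_r`,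
`r ≥ 1`.  Let `x` be the generator of the first letter.  For the positions `j` with `l_j = x^{±1}` let
`p_j = l_1 ⋯ l_{j-1}`, `ε_j = 1` if `l_j = x` and `p_j = l_1 ⋯ l_j`, `ε_j = -1` if `l_j = x⁻¹`.  The cocycle
`Pool.Agent.R387.TC.cc q x` (with values in the functions `Q → ZMod 2`, `q : F n → Q` a finite quotient) satisfies
`cc w = ∑_j delta (q p_j)` (the signs do not matter modulo 2; `cc_mul`, `cc_inv`, `cc_of_eq`, `cc_of_ne`; induction over
prefixes).

Distinctness: `p_j * p_i⁻¹ ∉ ⟨w⟩` in `F n` for `j ≠ i`.  Indeed if `p_j = w ^ a * p_i`, say `a ≥ 0` (exchange `i` and `j`), then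
`w ^ a * p_i` is reduced as written (`w` is cyclically reduced and `p_i` a prefix of `w`), of length `a r + |p_i|`, and
`|p_j| ≤ r`, `|p_i| ≤ r`.  So `a = 0` and `|p_j| = |p_i|`, or `a = 1`, `|p_i| = 0`, `|p_j| = r`.  If `|p_j| = |p_i|` with `i ≠ j` then
(say) `l_j = x` and `i = j - 1`, `l_{j-1} = x⁻¹`, and `w` is not reduced; in the other case `i = 1`, `l_1 = x`, `j = r`,
`l_r = x⁻¹` and `w` is not cyclically reduced.

Let `i₁` be the first position (`i₁ = 1`).  Choose the finite quotient `q : F n → Q` (with kernel contained in `L`) such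
that for all `j ≠ i` the commutator of `p_j * p_i⁻¹` and `w` is not in the kernel: by CEN it is not
trivial in `F n`, and free groups are residually finite (look for a lemma in the library, for example
`FreeGroup` residually finite in `Pool/Agent`; or intersect finitely many normal subgroups of finite index).  Then
`q (p_j * p_i⁻¹) ∉ H0 = ⟨q w⟩` for all `j ≠ i`.

Let `K = core (n) (Equiv.Perm (Q → ZMod 2) × Q)` as in `Pool.Agent.R387.TC.maln`.  If `g w g⁻¹ w⁻¹ ∈ K` then `cc (g w g⁻¹) = cc w`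
and `q (g w g⁻¹) = q w`, so `cc g + trans (q g) (cc w) - trans (q w) (cc g) = cc w`.  Sum the values over the points `b * z`,
`b ∈ H0`, for `z = q (p_{i₁})`: the terms with `cc g` cancel, and one gets
`#{j : q (g p_j) ∈ H0 z} = #{j : q p_j ∈ H0 z} = 1` modulo 2.  So there is `j` with `q (g * p_j) ∈ H0 * q (p_{i₁})`,
that is `q g ∈ H0 * q (p_{i₁} * p_j⁻¹)`.  As `q g` and `H0` commute with `q w`, so does `q (p_{i₁} * p_j⁻¹)`, hence
`j = i₁` by the choice of `Q`, and `q g ∈ H0`. -/
def S_CW : Prop := ∀ (n : ℕ) (w : F n), NotPow w → ∀ L : Subgroup (F n), L.Normal → L.FiniteIndex →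
  ∃ K : Subgroup (F n), K.Characteristic ∧ K.FiniteIndex ∧ K ≤ L ∧
    ∀ g : F n, g * w * g⁻¹ * w⁻¹ ∈ K → ∃ i : ℤ, g⁻¹ * w ^ i ∈ L

/-- **FIXW** (uses POT, CEN; 100 lines).  The automorphisms in `G` which fix `w`.

Proof.  Let `V ≤ Gw` be of finite index, without loss of generality normal in `Gw` (pass to the normal core).  There is `e ≥ 1` with
`conj (w ^ e) ∈ V` (the index of `V` in `Gw`, as `conj w ∈ Gw`).  POT gives `M` characteristic of finite index such
that `w ^ i ∈ M` implies `e ∣ i`.  Let `I = {conj m | m ∈ M}`, a normal subgroup of `Aut (F n)`, contained in `G`.  `V' = V ⊔ I`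
(`= V * I`) has finite index in `G`: `G = Gw * Inn` (for `σ ∈ G`, `σ w = g w g⁻¹`, `conj g⁻¹ * σ ∈ Gw`), and `V`
has finite index in `Gw`, `I` has finite index in `Inn`.  `CongG n G` for `V'` gives `K`.  If `σ ∈ Gw` acts trivially modulo
`K` then `σ = v * conj m` with `v ∈ V`, `m ∈ M`, so `conj m = v⁻¹ σ` fixes `w`, `m` commutes with `w`, `m = w ^ i` by CEN, so
`e ∣ i`, `conj m ∈ V` and `σ ∈ V`. -/
def S_FIXW : Prop := ∀ (n : ℕ) (G Gw : Subgroup (MulAut (F n))) (w : F n), CongG n G →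
  (∀ g : F n, MulAut.conj g ∈ G) → NotPow w → (∀ σ ∈ G, ∃ g : F n, σ w = g * w * g⁻¹) →
  (∀ σ, σ ∈ Gw ↔ σ ∈ G ∧ σ w = w) → CongG n Gw

/-- **AMA** (uses GAD, CW; 200 lines; compare `Pool/Agent/N77/CS/ASM.lean`).  The amalgam.

Proof.  For `τ ∈ D` let `E τ : F (k + l) →* F (k + l)` be `hAB (iA k l) ((ew l w).comp (τ ∘ inc l))`.  As `τ` fixes `t`:
`E τ (ew l w x) = ew l w (τ x)` for all `x` (`hom_ext`), so `E` defines a homomorphism `D →* MulAut (F (k + l))` (`autOf`), with
values in `P` (with `σ = 1`).  Likewise `σ ↦ PA k l σ` (see `ASM.lean`) for `σ ∈ C` has values in `P` (with `τ = 1`), because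
`PA σ (ew l w t) = iA (σ w) = iA w`.  For `φ ∈ P` with `σ`, `τ` we have `φ = PA σ * E τ`.

`CongG`: let `V ≤ P` be of finite index, `N` the normal core of `V.subgroupOf P`.  `CongG k C` for the comap of `N` along
`C → P` gives `KA`; `CongG (l + 1) D` for the comap along `D → P` gives `KB`; GAD gives `K₁` for `KB`.  Let `K` be
the intersection of `K₁` and `core (k + l) (F k ⧸ KA)`.  If `φ ∈ P` acts trivially modulo `K`: the retraction
`r : F (k + l) → F k` (`hAB id 1`) shows `σ x * x⁻¹ = r (φ (iA x) * (iA x)⁻¹) ∈ KA`; and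
`ew l w (τ y * y⁻¹) = φ (ew y) * (ew y)⁻¹ ∈ K₁` shows `τ y * y⁻¹ ∈ KB`.  So `PA σ`, `E τ` are in `N`, `φ ∈ V`.

`Norm` with `H = zpowers (iA k l w)`: `φ (iA w) = iA w` for `φ ∈ P`.  Let `L` be given; `iA k l w` is `NotPow` in
`F (k + l)` (if `iA w = v ^ j` apply the retraction `r`), and CW gives `K`: if `φ` acts as the conjugation by `g`
modulo `K` then `g * iA w * g⁻¹ * (iA w)⁻¹ ∈ K` (up to inversion), so `g⁻¹ * (iA w) ^ i ∈ L`.  And `conj (iA w) ∈ P` with
`σ = conj w ∈ C`, `τ = conj t ∈ D` (`ew l w (t y t⁻¹) = iA w * ew l w y * (iA w)⁻¹`). -/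
def S_AMA : Prop := ∀ (k l : ℕ) (C : Subgroup (MulAut (F k))) (D : Subgroup (MulAut (F (l + 1))))
  (w : F k) (P : Subgroup (MulAut (F (k + l)))), 1 ≤ k → NotPow w → CongG k C → CongG (l + 1) D →
  (∀ σ ∈ C, σ w = w) → (∀ τ ∈ D, τ (tt l) = tt l) → MulAut.conj w ∈ C → MulAut.conj (tt l) ∈ D →
  (∀ φ, φ ∈ P ↔ ∃ σ ∈ C, ∃ τ ∈ D, (∀ x, φ (iA k l x) = iA k l (σ x)) ∧
    ∀ y, φ (ew l w y) = ew l w (τ y)) → OkG (k + l) P

end Pool.Agent.V5helper35.AS
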