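import Pool.Agent.V5helper35.AS.Fin3
import Pool.Agent.V5helper35.AS.StmA

/-!
# Project AS, part 3: amalgams along cyclic subgroups, for `Out`
-/

set_option autoImplicit false

namespace Pool.Agent.V5helper35.ASF

open Pool.Agent.R387.TC Pool.Agent.N77.CS
open Pool.Agent.V5helper35.AS (OkG CongG NotPow ew S_FIXW S_AMA)

/-- the automorphisms in `G` which fix `w` -/
def fixG {n : ℕ} (G : Subgroup (MulAut (F n))) (w : F n) : Subgroup (MulAut (F n)) where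
  carrier := {σ | σ ∈ G ∧ σ w = w}
  mul_mem' := by
    rintro a b ⟨h1, h2⟩ ⟨h3, h4⟩
    exact ⟨G.mul_mem h1 h3, by rw [MulAut.mul_apply, h4, h2]⟩
  one_mem' := ⟨G.one_mem, rfl⟩
  inv_mem' := by
    rintro a ⟨h1, h2⟩
    refine ⟨G.inv_mem h1, ?_⟩
    apply a.injective
    rw [MulAut.apply_inv_self, h2]

/-- the amalgam -/
def amaG {k l : ℕ} (C : Subgroup (MulAut (F k))) (D : Subgroup (MulAut (F (l + 1)))) (w : F k) :
    Subgroup (MulAut (F (k + l))) where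
  carrier := {φ | ∃ σ ∈ C, ∃ τ ∈ D, (∀ x, φ (iA k l x) = iA k l (σ x)) ∧
    ∀ y, φ (ew l w y) = ew l w (τ y)}
  mul_mem' := by
    rintro φ φ' ⟨σ, hσ, τ, hτ, h1, h2⟩ ⟨σ', hσ', τ', hτ', h1', h2'⟩
    refine ⟨σ * σ', C.mul_mem hσ hσ', τ * τ', D.mul_mem hτ hτ', fun x => ?_, fun y => ?_⟩
    · rw [MulAut.mul_apply, h1', h1, MulAut.mul_apply]
    · rw [MulAut.mul_apply, h2', h2, MulAut.mul_apply]
  one_mem' := ⟨1, C.one_mem, 1, D.one_mem, fun _ => rfl, fun _ => rfl⟩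
  inv_mem' := by
    rintro φ ⟨σ, hσ, τ, hτ, h1, h2⟩
    refine ⟨σ⁻¹, C.inv_mem hσ, τ⁻¹, D.inv_mem hτ, fun x => ?_, fun y => ?_⟩
    · apply φ.injective
      rw [h1, MulAut.apply_inv_self, MulAut.apply_inv_self]
    · apply φ.injective
      rw [h2, MulAut.apply_inv_self, MulAut.apply_inv_self]

theorem notPow_tt (l : ℕ) : NotPow (tt l) := by
  refine ⟨FreeGroup.of_ne_one _, fun v j h => ?_⟩
  have h1 := congrArg (homExt (1 : F l →* Multiplicative ℤ) (Multiplicative.ofAdd 1)) h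
  rw [homExt_tt, map_zpow] at h1
  have h2 := congrArg Multiplicative.toAdd h1
  rw [toAdd_zpow, toAdd_ofAdd, smul_eq_mul] at h2
  exact Int.eq_one_or_neg_one_of_mul_eq_one h2.symm

theorem conj_mem_pre {n : ℕ} (A : Subgroup (OF n)) (g : F n) : MulAut.conj g ∈ pre A := by
  change ((MulAut.conj g : MulAut (F n)) : OF n) ∈ A
  have h1 : ((MulAut.conj g : MulAut (F n)) : OF n) = 1 := by
    rw [QuotientGroup.eq_one_iff]
    exact ⟨g, rfl⟩
  rw [h1]
  exact A.one_mem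

theorem full_ama (hW : S_FIXW) (hM : S_AMA) {k l : ℕ} (hk : 1 ≤ k) (w : F k) (hw : NotPow w)
    {A : Subgroup (OF k)} {B : Subgroup (OF (l + 1))} (hA : Full k A) (hB : Full (l + 1) B)
    (hAw : ∀ σ : MulAut (F k), (σ : OF k) ∈ A → ∃ g, σ w = g * w * g⁻¹)
    (hBt : ∀ τ : MulAut (F (l + 1)), (τ : OF (l + 1)) ∈ B → ∃ g, τ (tt l) = g * tt l * g⁻¹) :
    Full (k + l) ((amaG (fixG (pre A) w) (fixG (pre B) (tt l)) w).map (QuotientGroup.mk' _)) := by
  have h1 : CongG k (fixG (pre A) w) := hW k (pre A) _ w (okG_pre F_FROM F_FIX hk hA).2.1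
    (conj_mem_pre A) hw hAw (fun _ => Iff.rfl)
  have h2 : CongG (l + 1) (fixG (pre B) (tt l)) := hW (l + 1) (pre B) _ (tt l)
    (okG_pre F_FROM F_FIX (by omega) hB).2.1 (conj_mem_pre B) (notPow_tt l) hBt (fun _ => Iff.rfl)
  exact F_OUT _ _ (hM k l (fixG (pre A) w) (fixG (pre B) (tt l)) w _ hk hw h1 h2
    (fun σ h => h.2) (fun τ h => h.2) ⟨conj_mem_pre A w, by rw [MulAut.conj_apply]; group⟩
    ⟨conj_mem_pre B (tt l), by rw [MulAut.conj_apply]; group⟩ (fun _ => Iff.rfl))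

end Pool.Agent.V5helper35.ASF
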