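import Mathlib

/-!
# Project AS: the congruence subgroup property of `Aut (F_2)` (Asada's theorem)

Automorphisms of the free group `F = ⟨x, y⟩` of rank 2.
-/

set_option autoImplicit false

namespace Pool.Agent.V5helper35.AS

open FreeGroup (of)

/-- the free group of rank 2 -/
abbrev F : Type := FreeGroup (Fin 2)

/-- the first generator -/
abbrev X : F := of 0
/-- the second generator -/
abbrev Y : F := of 1

/-- homomorphisms from `F` -/
def mk2 {G : Type} [Group G] (u v : G) : F →* G := FreeGroup.lift ![u, v]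

@[simp] theorem mk2_X {G : Type} [Group G] (u v : G) : mk2 u v (of 0) = u := by simp [mk2]
@[simp] theorem mk2_Y {G : Type} [Group G] (u v : G) : mk2 u v (of 1) = v := by simp [mk2]

theorem hom_ext2 {G : Type} [Group G] {f g : F →* G} (h0 : f (of 0) = g (of 0))
    (h1 : f (of 1) = g (of 1)) : f = g := by
  apply FreeGroup.ext_hom
  intro i
  fin_cases i
  · exact h0
  · exact h1

theorem aut_ext2 {f g : MulAut F} (h0 : f (of 0) = g (of 0))
    (h1 : f (of 1) = g (of 1)) : f = g := by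
  have : f.toMonoidHom = g.toMonoidHom := hom_ext2 h0 h1
  ext u
  exact DFunLike.congr_fun this u

/-- `δ`: `x ↦ x`, `y ↦ x² y` -/
def dl : MulAut F := MonoidHom.toMulEquiv (mk2 X (X * X * Y)) (mk2 X (X⁻¹ * X⁻¹ * Y))
  (hom_ext2 (by simp) (by simp [mul_assoc])) (hom_ext2 (by simp) (by simp [mul_assoc]))

/-- `ε`: `x ↦ x y⁻²`, `y ↦ y` -/
def ep : MulAut F := MonoidHom.toMulEquiv (mk2 (X * Y⁻¹ * Y⁻¹) Y) (mk2 (X * Y * Y) Y)
  (hom_ext2 (by simp) (by simp)) (hom_ext2 (by simp) (by simp))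

/-- `ζ`: `x ↦ x y⁻¹ x⁻¹ y x⁻¹`, `y ↦ x y⁻¹ x⁻¹` -/
def ze : MulAut F := MonoidHom.toMulEquiv (mk2 (X * Y⁻¹ * X⁻¹ * Y * X⁻¹) (X * Y⁻¹ * X⁻¹))
  (mk2 (Y⁻¹ * X⁻¹ * Y) (Y⁻¹ * X * Y⁻¹ * X⁻¹ * Y))
  (hom_ext2 (by simp [mul_assoc]) (by simp [mul_assoc])) (hom_ext2 (by simp [mul_assoc])
    (by simp [mul_assoc]))

/-- the homomorphism `F → Aut (F)` which maps `x` to `δ` and `y` to `ε` -/
def rho : F →* MulAut F := mk2 dl ep

@[simp] theorem rho_X : rho (of 0) = dl := by simp [rho]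
@[simp] theorem rho_Y : rho (of 1) = ep := by simp [rho]

@[simp] theorem dl_X : dl (of 0) = of 0 := by
  show mk2 X (X * X * Y) (of 0) = _
  simp
@[simp] theorem dl_Y : dl (of 1) = of 0 * of 0 * of 1 := by
  show mk2 X (X * X * Y) (of 1) = _
  simp
@[simp] theorem ep_X : ep (of 0) = of 0 * (of 1)⁻¹ * (of 1)⁻¹ := by
  show mk2 (X * Y⁻¹ * Y⁻¹) Y (of 0) = _
  simp
@[simp] theorem ep_Y : ep (of 1) = of 1 := by
  show mk2 (X * Y⁻¹ * Y⁻¹) Y (of 1) = _
  simp
@[simp] theorem ze_X : ze (of 0) = of 0 * (of 1)⁻¹ * (of 0)⁻¹ * of 1 * (of 0)⁻¹ := by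
  show mk2 (X * Y⁻¹ * X⁻¹ * Y * X⁻¹) (X * Y⁻¹ * X⁻¹) (of 0) = _
  simp
@[simp] theorem ze_Y : ze (of 1) = of 0 * (of 1)⁻¹ * (of 0)⁻¹ := by
  show mk2 (X * Y⁻¹ * X⁻¹ * Y * X⁻¹) (X * Y⁻¹ * X⁻¹) (of 1) = _
  simp

theorem dl_ze : dl * ze = ze * dl := by
  apply aut_ext2 <;> simp [MulAut.mul_apply, mul_assoc]

theorem ep_ze : ep * ze = ze * ep := by
  apply aut_ext2 <;> simp [MulAut.mul_apply, mul_assoc]

theorem rho_ze (w : F) : rho w * ze = ze * rho w := by
  induction w using FreeGroup.induction_on with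
  | C1 => simp
  | of i =>
    fin_cases i
    · simpa using dl_ze
    · simpa using ep_ze
  | inv_of i ih =>
    rw [map_inv]
    exact (Commute.inv_left (show Commute _ _ from ih)).eq
  | mul a b iha ihb =>
    rw [map_mul]
    exact (Commute.mul_left (show Commute _ _ from iha) (show Commute _ _ from ihb)).eq

/-- the inversion: `x ↦ x⁻¹`, `y ↦ y⁻¹` -/
def io : MulAut F := MonoidHom.toMulEquiv (mk2 X⁻¹ Y⁻¹) (mk2 X⁻¹ Y⁻¹)
  (hom_ext2 (by simp) (by simp)) (hom_ext2 (by simp) (by simp))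

/-- `x ↦ x⁻¹`, `y ↦ y` -/
def ee : MulAut F := MonoidHom.toMulEquiv (mk2 X⁻¹ Y) (mk2 X⁻¹ Y)
  (hom_ext2 (by simp) (by simp)) (hom_ext2 (by simp) (by simp))

/-- `x ↦ y`, `y ↦ x` -/
def sg : MulAut F := MonoidHom.toMulEquiv (mk2 Y X) (mk2 Y X)
  (hom_ext2 (by simp) (by simp)) (hom_ext2 (by simp) (by simp))

/-- `x ↦ x y`, `y ↦ y` -/
def mu : MulAut F := MonoidHom.toMulEquiv (mk2 (X * Y) Y) (mk2 (X * Y⁻¹) Y)
  (hom_ext2 (by simp) (by simp)) (hom_ext2 (by simp) (by simp))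

@[simp] theorem io_X : io (of 0) = (of 0)⁻¹ := by
  show mk2 X⁻¹ Y⁻¹ (of 0) = _
  simp
@[simp] theorem io_Y : io (of 1) = (of 1)⁻¹ := by
  show mk2 X⁻¹ Y⁻¹ (of 1) = _
  simp
@[simp] theorem ee_X : ee (of 0) = (of 0)⁻¹ := by
  show mk2 X⁻¹ Y (of 0) = _
  simp
@[simp] theorem ee_Y : ee (of 1) = of 1 := by
  show mk2 X⁻¹ Y (of 1) = _
  simp
@[simp] theorem sg_X : sg (of 0) = of 1 := by
  show mk2 Y X (of 0) = _
  simp
@[simp] theorem sg_Y : sg (of 1) = of 0 := by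
  show mk2 Y X (of 1) = _
  simp
@[simp] theorem mu_X : mu (of 0) = of 0 * of 1 := by
  show mk2 (X * Y) Y (of 0) = _
  simp
@[simp] theorem mu_Y : mu (of 1) = of 1 := by
  show mk2 (X * Y) Y (of 1) = _
  simp

/-- **STR.** Every automorphism of `F` is a product `conj g * rho w * s * t` with `g`, `w` in `F`,
`s` in `{1, io, ee, ee * io}` and `t` in `{1, sg, mu, sg * mu, mu * sg, sg * mu * sg}`.

Proof.  By Nielsen's theorem (`Pool.Agent.H528.Nielsen.nielsen` in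
`Pool/Agent/H528/MCG/Nielsen.lean`) the subgroup generated by `sg`, `ee`, `mu` and all `conj g` is `⊤`.
Let `U` be the subgroup generated by all `conj g`, `dl`, `ep`, `io`, `ee`.

(1) Every element of `U` is `conj g * rho w * s` (closure induction on the right: `s * conj h =
conj (s h) * s`, `rho w * conj h = conj (rho w h) * rho w`, and
`ee * dl = dl⁻¹ * ee`, `io * dl = conj (x⁻²) * dl * io`, `ee * ep = conj (y²) * ep⁻¹ * ee`,
`io * ep = conj (y⁻²) * ep * io`, `io * ee = ee * io`, `ee² = io² = 1`).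

(2) `U` is normal: its normalizer contains all `conj g`, `ee`, `sg`, `mu`:
`sg * dl * sg⁻¹ = conj (y²) * ep⁻¹`, `sg * ep * sg⁻¹ = conj (x²) * dl⁻¹`, `sg * io * sg⁻¹ = io`,
`sg * ee * sg⁻¹ = ee * io`,
`mu * dl * mu⁻¹ = conj (x y x y² x y²) * ep⁻¹ * dl⁻¹ * io`, `mu * ep * mu⁻¹ = ep`,
`mu * io * mu⁻¹ = conj (y⁻¹) * io`, `mu * ee * mu⁻¹ = conj y * ep⁻¹ * ee`; and `sg² = 1`,
`mu² = ep⁻¹`, so that `sg⁻¹ U sg ≤ U`, `mu⁻¹ U mu ≤ U`.

(3) In the quotient `Aut (F) / U` we have `sg² = 1`, `mu² = 1` and `sg mu sg = mu sg mu` (to be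
checked: `mu sg mu (sg mu sg)⁻¹` is in `U`), and `ee = 1`, `conj g = 1`, so the set of the six elements
`1, sg, mu, sg mu, mu sg, sg mu sg` is closed under right multiplication by `sg` and `mu`, hence it is
everything. -/
def S_STR : Prop := ∀ α : MulAut F, ∃ g w : F, ∃ s t : MulAut F,
  (s = 1 ∨ s = io ∨ s = ee ∨ s = ee * io) ∧
  (t = 1 ∨ t = sg ∨ t = mu ∨ t = sg * mu ∨ t = mu * sg ∨ t = sg * mu * sg) ∧
  α = MulAut.conj g * rho w * s * t

/-- **MOD.** An automorphism which acts trivially on the homology modulo 4 is a product `conj g * rho w`.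

Proof (uses STR).  Write `α = conj g * rho w * s * t`.  For an automorphism `β` let `M β` be the `2 × 2`
matrix over `ZMod 4` of its action on the homology (`f0 (β x)`, `f1 (β x)`, `f0 (β y)`, `f1 (β y)` for the
homomorphisms `f0 = mk2 (ofAdd 1) 1`, `f1 = mk2 1 (ofAdd 1)` to `Multiplicative (ZMod 4)`); it does not
see inner automorphisms.  The matrix of `rho w` has diagonal entries 1 and off-diagonal entries in
`{0, 2}` (induction on `w`, multiply on the right or left by the matrices of `dl^{±1}`, `ep^{±1}`).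
Modulo 2 the matrices of the six `t` are different, so `t = 1`; then `M (rho w) = M (s)⁻¹ = M (s)` has a
diagonal entry `-1` unless `s = 1`. -/
def S_MOD : Prop := ∀ α : MulAut F,
  (∀ (f : F →* Multiplicative (ZMod 4)) (u : F), f (α u) = f u) →
    ∃ g w : F, α = MulAut.conj g * rho w

end Pool.Agent.V5helper35.AS
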