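import Pool.Agent.V5helper35.AS.Main
import Pool.Agent.V5helper62.AS.MOD
import Pool.Agent.V5helper76.AS.STR
import Pool.Agent.V5helper35.CA.Fin5

/-!
# Project AS: the congruence subgroup property of `Out (F_2)`
-/

set_option autoImplicit false

namespace Pool.Agent.V5helper35.AS

open Pool.Agent.R387.TC (OutCong ConjMod Cong core mem_core core_char core_fin)

theorem outCong_two : OutCong 2 Set.univ := by
  intro V hV hVf hVi
  set Δ : Subgroup F := V.comap rho with hΔ
  have hΔf : Δ.FiniteIndex := Pool.Agent.R387.TC.fi_comap _ _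
  have hΔn : Δ.Normal := inferInstance
  obtain ⟨K, hK, hKf, h⟩ := main_lemma Δ
  have hc := core_char 2 (Multiplicative (ZMod 4))
  have hf := core_fin 2 (Multiplicative (ZMod 4))
  refine ⟨K ⊓ core 2 (Multiplicative (ZMod 4)), ?_, inferInstance, ?_⟩
  · rw [Subgroup.characteristic_iff_le_comap] at hK hc ⊢
    intro φ x hx
    exact ⟨hK φ hx.1, hc φ hx.2⟩
  · rintro α - ⟨g, hg⟩
    obtain ⟨a, w, rfl⟩ := Pool.Agent.V5helper62.AS.t_MOD Pool.Agent.V5helper76.AS.t_STR α (by
      intro f u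
      have h1 := mem_core.1 (hg u).2 f
      rw [map_mul, map_inv, map_mul, map_mul, map_inv, mul_inv_eq_one] at h1
      rw [h1, mul_comm, inv_mul_cancel_left])
    have h2 : w ∈ Δ := by
      apply h w (a⁻¹ * g)
      intro u
      have h3 := (hg u).1
      rw [MulAut.mul_apply, MulAut.conj_apply] at h3
      have h4 := (inferInstance : K.Normal).conj_mem _ h3 a⁻¹
      have h5 : a⁻¹ * (a * rho w u * a⁻¹ * (g * u * g⁻¹)⁻¹) * a⁻¹⁻¹ =
          rho w u * (a⁻¹ * g * u * (a⁻¹ * g)⁻¹)⁻¹ := by group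
      rwa [h5] at h4
    exact V.mul_mem (hVi a) h2

end Pool.Agent.V5helper35.AS
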