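import Pool.Agent.V5helper35.AS.Stm

/-!
# Project AS, part 2: punctures
-/

set_option autoImplicit false

namespace Pool.Agent.V5helper35.ASF

open Pool.Agent.R387.TC Pool.Agent.N77.CS
open Pool.Agent.V5helper35.AS (OkG CongG)

/-- an element which commutes with `t` modulo a deep subgroup is close to a power of `t` -/
theorem cent_t (n : ℕ) (L : Subgroup (F (n + 1))) [L.Normal] [L.FiniteIndex] :
    ∃ K : Subgroup (F (n + 1)), K.Characteristic ∧ K.FiniteIndex ∧ K ≤ L ∧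
      ∀ g, g * tt n * g⁻¹ * (tt n)⁻¹ ∈ K → ∃ k : ℤ, g⁻¹ * tt n ^ k ∈ L := by
  let Q := F (n + 1) ⧸ L
  let q : F (n + 1) →* Q := QuotientGroup.mk' L
  let R := Equiv.Perm (Q → ZMod 2) × Q
  have hR : Finite R := inferInstance
  refine ⟨core (n + 1) R, core_char _ _, core_fin _ _, ?_, ?_⟩
  · intro x hx
    have := mem_core.1 hx (MonoidHom.prod 1 q)
    exact (QuotientGroup.eq_one_iff x).1 (Prod.mk_eq_one.1 this).2
  · intro g hgy
    have h0 := mem_core.1 hgy (MonoidHom.prod (aff q (Fin.last n)) q)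
    have h1 := (Prod.mk_eq_one.1 h0).1
    have h2 := (Prod.mk_eq_one.1 h0).2
    rw [map_mul, map_inv, mul_inv_eq_one] at h1
    change q (_ * _) = 1 at h2
    rw [map_mul, map_inv, mul_inv_eq_one] at h2
    have hsup := cc_support q (Fin.last n) ((Subgroup.zpowers (tt n)).map q)
      (Subgroup.zpowers (tt n)) {tt n} (Subgroup.zpowers_eq_closure _) (by
        rintro w rfl
        refine ⟨Subgroup.mem_map_of_mem _ (Subgroup.mem_zpowers _), fun z hz => ?_⟩
        rw [tt, cc_of_eq]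
        simp only [delta]
        rw [if_neg]
        rintro rfl
        exact hz (Subgroup.one_mem _)) (tt n) (Subgroup.mem_zpowers _)
    have := malnormal q (Fin.last n) ((Subgroup.zpowers (tt n)).map q) g (tt n) hsup.1 hsup.2
      (by unfold cc; rw [← h1]; rfl) h2
    obtain ⟨_, ⟨k, rfl⟩, hy'⟩ := this
    refine ⟨k, ?_⟩
    have h3 : q (g⁻¹ * tt n ^ k) = 1 := by
      rw [map_mul, map_inv]
      have h4 : q (tt n ^ k) = q g := hy'
      rw [h4, inv_mul_cancel]
    exact (QuotientGroup.eq_one_iff _).1 h3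

/-- `Out (F_n)` -/
abbrev OF (n : ℕ) : Type := MulAut (F n) ⧸ (MulAut.conj (G := F n)).range

/-- a subgroup of finite index of the image gives a subgroup of finite index of the source -/
theorem relIndex_map_comap {G H : Type} [Group G] [Group H] (A : Subgroup G) (f : A →* H)
    (B : Subgroup H) (hBf : B.relIndex f.range ≠ 0) :
    ((B.comap f).map A.subtype).relIndex A ≠ 0 := by
  have h1 : (B.comap f).index = B.relIndex f.range := Subgroup.index_comap _ _
  have h2 : ((B.comap f).map A.subtype).relIndex A = (B.comap f).index := by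
    rw [Subgroup.relIndex, Subgroup.subgroupOf,
      Subgroup.comap_map_eq_self_of_injective A.subtype_injective]
  rw [h2, h1]
  exact hBf

/-- two automorphisms with the same class: both are inner modulo `K` -/
theorem conjMod_of_class {n : ℕ} {K : Subgroup (F n)} {α ψ : MulAut (F n)}
    (h : (ψ : OF n) = (α : OF n)) {g : F n} (hg : ConjMod K α g) : ∃ g', ConjMod K ψ g' := by
  have h4 : ψ⁻¹ * α ∈ (MulAut.conj (G := F n)).range := QuotientGroup.eq.1 h
  obtain ⟨c, hc⟩ := h4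
  have hα : α = ψ * MulAut.conj c := by rw [hc, mul_inv_cancel_left]
  refine ⟨g * c⁻¹, fun x => ?_⟩
  have h6 := hg (c⁻¹ * x * c)
  have h7 : α (c⁻¹ * x * c) = ψ x := by
    rw [hα, MulAut.mul_apply, MulAut.conj_apply]
    congr 1
    group
  rw [h7] at h6
  have h8 : ψ x * (g * (c⁻¹ * x * c) * g⁻¹)⁻¹ = ψ x * (g * c⁻¹ * x * (g * c⁻¹)⁻¹)⁻¹ := by group
  rwa [h8] at h6

/-- if `p ∘ ψ = σ ∘ p` and `ψ` is inner modulo a subgroup of the preimage of `K` then `σ` is inner
modulo `K` -/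
theorem conjMod_push {n m : ℕ} (p : F m →* F n) (hp : Function.Surjective p)
    {K : Subgroup (F n)} [K.Normal] {K' : Subgroup (F m)} (hK : K' ≤ K.comap p)
    {ψ : MulAut (F m)} {σ : MulAut (F n)} (h : ∀ x, p (ψ x) = σ (p x)) {g : F m}
    (hg : ConjMod K' ψ g) : ConjMod K σ (p g) := by
  intro x
  obtain ⟨x, rfl⟩ := hp x
  rw [← h]
  have h9 : p (ψ x * (g * x * g⁻¹)⁻¹) ∈ K := hK (hg x)
  simpa only [map_mul, map_inv] using h9

/-- punctures -/
theorem punc {n m : ℕ} (G : Subgroup (MulAut (F n))) (hG : CongG n G)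
    (p : F (m + 1) →* F n) (hp : Function.Surjective p) (hpt : p (tt m) = 1)
    (f : G →* OF (m + 1))
    (hf : ∀ σ : G, ∃ ψ : MulAut (F (m + 1)), (ψ : OF (m + 1)) = f σ ∧
      ψ (tt m) = tt m ∧ ∀ x, p (ψ x) = (σ : MulAut (F n)) (p x))
    (B : Subgroup (OF (m + 1))) (hBf : B.relIndex f.range ≠ 0) :
    ∃ K : Subgroup (F (m + 1)), K.Characteristic ∧ K.FiniteIndex ∧
      ∀ α : MulAut (F (m + 1)), (α : OF (m + 1)) ∈ f.range → (∃ g, ConjMod K α g) →
        (α : OF (m + 1)) ∈ B := by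
  obtain ⟨K, hK, hKf, h⟩ := hG _ (Subgroup.map_subtype_le _) (relIndex_map_comap G f B hBf)
  have hKn : K.Normal := inferInstance
  have hLn : (K.comap p).Normal := inferInstance
  have hLf : (K.comap p).FiniteIndex := fi_comap _ _
  obtain ⟨K', hK', hK'f, hK'L, h'⟩ := cent_t m (K.comap p)
  refine ⟨K', hK', hK'f, ?_⟩
  rintro α ⟨σ, hσ⟩ ⟨g, hg⟩
  obtain ⟨ψ, h1, h2, h3⟩ := hf σ
  rw [hσ] at h1
  obtain ⟨g', h5⟩ := conjMod_of_class h1 hg
  have h6 := h5 (tt m)
  rw [h2] at h6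
  obtain ⟨k, hk⟩ := h' g' (by
    have := K'.inv_mem h6
    have e : (tt m * (g' * tt m * g'⁻¹)⁻¹)⁻¹ = g' * tt m * g'⁻¹ * (tt m)⁻¹ := by group
    rwa [e] at this)
  have h7 : QuotientGroup.mk' K (p g') = 1 := by
    have h8 : p (g'⁻¹ * tt m ^ k) ∈ K := hk
    rw [map_mul, map_zpow, hpt, one_zpow, mul_one, map_inv] at h8
    exact (QuotientGroup.eq_one_iff _).2 (K.inv_mem_iff.1 h8)
  have h8 : (σ : MulAut (F n)) ∈ (B.comap f).map G.subtype := by
    apply h _ σ.2
    intro x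
    have h9 := conjMod_push p hp hK'L h3 h5 x
    have h10 : QuotientGroup.mk' K ((σ : MulAut (F n)) x * (p g' * x * (p g')⁻¹)⁻¹) = 1 :=
      (QuotientGroup.eq_one_iff _).2 h9
    apply (QuotientGroup.eq_one_iff _).1
    change QuotientGroup.mk' K (_ * _) = 1
    simp only [map_mul, map_inv, h7, one_mul, inv_one, mul_one] at h10 ⊢
    exact h10
  obtain ⟨σ', h9, h10⟩ := h8
  have h11 : σ' = σ := Subtype.ext h10
  subst h11
  rw [← hσ]
  exact h9

/-- lifts along a surjection `F_m → F_n` -/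
theorem lift {n m : ℕ} (A : Subgroup (OF n))
    (hA : ∀ B : Subgroup (OF n), B ≤ A → B.relIndex A ≠ 0 →
      ∃ K : Subgroup (F n), K.Characteristic ∧ K.FiniteIndex ∧
        ∀ α : MulAut (F n), (α : OF n) ∈ A → (∃ g, ConjMod K α g) → (α : OF n) ∈ B)
    (p : F m →* F n) (hp : Function.Surjective p) (f : A →* OF m)
    (hf : ∀ a : A, ∃ (α : MulAut (F n)) (β : MulAut (F m)), (α : OF n) = a ∧ (β : OF m) = f a ∧
      ∀ x, p (β x) = α (p x))
    (B : Subgroup (OF m)) (hBf : B.relIndex f.range ≠ 0) :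
    ∃ K : Subgroup (F m), K.Characteristic ∧ K.FiniteIndex ∧
      ∀ γ : MulAut (F m), (γ : OF m) ∈ f.range → (∃ g, ConjMod K γ g) → (γ : OF m) ∈ B := by
  obtain ⟨K, hK, hKf, h⟩ := hA _ (Subgroup.map_subtype_le _) (relIndex_map_comap A f B hBf)
  have hKn : K.Normal := inferInstance
  have hc := core_char m (F n ⧸ K)
  have hcf := core_fin m (F n ⧸ K)
  have hle : core m (F n ⧸ K) ≤ K.comap p := by
    intro x hx
    have h1 : (p x : F n ⧸ K) = 1 := mem_core.1 hx ((QuotientGroup.mk' K).comp p)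
    exact (QuotientGroup.eq_one_iff (p x)).1 h1
  refine ⟨core m (F n ⧸ K), hc, hcf, ?_⟩
  rintro γ ⟨a, ha⟩ ⟨g, hg⟩
  obtain ⟨α, β, h1, h2, h3⟩ := hf a
  rw [ha] at h2
  obtain ⟨g', h5⟩ := conjMod_of_class h2 hg
  have h6 := h α (by rw [h1]; exact a.2) ⟨p g', conjMod_push p hp hle h3 h5⟩
  rw [h1] at h6
  obtain ⟨a', h9, h10⟩ := h6
  have h11 : a' = a := Subtype.ext h10
  subst h11
  rw [← ha]
  exact h9

end Pool.Agent.V5helper35.ASF
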