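import Pool.Agent.V5helper35.AS.Fin
import Pool.Agent.V5helper35.AS.Punc

/-!
# Project AS, part 2: the assembly
-/

set_option autoImplicit false

namespace Pool.Agent.V5helper35.ASF

open Pool.Agent.R387.TC Pool.Agent.N77.CS
open Pool.Agent.V5helper35.AS (OkG CongG S_STEP S_PROD S_COVER S_FIX S_OUT S_FROM outCong_two)

/-- every subgroup of finite index of the subgroup `A` of `Out (F_n)` is a congruence subgroup of `A` -/
def Full (n : ℕ) (A : Subgroup (OF n)) : Prop :=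
  ∀ B : Subgroup (OF n), B ≤ A → B.relIndex A ≠ 0 →
    ∃ K : Subgroup (F n), K.Characteristic ∧ K.FiniteIndex ∧
      ∀ α : MulAut (F n), (α : OF n) ∈ A → (∃ g, ConjMod K α g) → (α : OF n) ∈ B

/-- the preimage in `Aut` -/
abbrev pre {n : ℕ} (A : Subgroup (OF n)) : Subgroup (MulAut (F n)) :=
  A.comap (QuotientGroup.mk' (MulAut.conj (G := F n)).range)

theorem full_two : Full 2 ⊤ := by
  intro B _ hB
  rw [Subgroup.relIndex_top_right] at hB
  have hBf : B.FiniteIndex := ⟨hB⟩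
  have hVf : (pre B).FiniteIndex := ⟨by
    rw [Subgroup.index_comap_of_surjective _ (QuotientGroup.mk'_surjective _)]
    exact hB⟩
  have hI : (MulAut.conj (G := F 2)).range ≤ pre B := by
    rintro _ ⟨g, rfl⟩
    change ((MulAut.conj g : MulAut (F 2)) : OF 2) ∈ B
    have h1 : ((MulAut.conj g : MulAut (F 2)) : OF 2) = 1 := by
      rw [QuotientGroup.eq_one_iff]
      exact ⟨g, rfl⟩
    rw [h1]
    exact B.one_mem
  have hI2 : (MulAut.conj (G := F 2)).range ≤ (pre B).normalCore :=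
    Subgroup.normal_le_normalCore.2 hI
  obtain ⟨K, h1, h2, h3⟩ := outCong_two (pre B).normalCore inferInstance inferInstance
    (fun g => hI2 ⟨g, rfl⟩)
  exact ⟨K, h1, h2, fun α _ hα => (Subgroup.normalCore_le (pre B)) (h3 α trivial hα)⟩

theorem full_ab (m : ℕ) (hm : 2 ≤ m) (A A₀ : Subgroup (OF m)) (h1 : A₀ ≤ A)
    (h2 : A₀.relIndex A ≠ 0) (h3 : A₀.FG) (h4 : ∀ a ∈ A₀, ∀ b ∈ A₀, a * b = b * a) :
    Full m A := fun B h5 h6 =>
  Pool.Agent.V5helper35.CA.virt m hm A A₀ B h1 h2 h3 h4 h5 h6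

theorem okG_one : OkG 1 ⊤ := by
  refine ⟨le_rfl, ?_, ⊤, norm_top _ _, fun _ _ => trivial⟩
  intro V _ hV
  rw [Subgroup.relIndex_top_right] at hV
  obtain ⟨K, h1, h2, h3⟩ := ONE.main V ⟨hV⟩
  exact ⟨K, h1, h2, fun ψ _ => h3 ψ trivial⟩

/-- the automorphism group of `F_1` is finite -/
theorem finite_aut_one : Finite (MulAut (F 1)) := by
  have hinj : Function.Injective (fun ψ : MulAut (F 1) => ψ (FreeGroup.of 0)) := by
    intro φ ψ h
    have : φ.toMonoidHom = ψ.toMonoidHom := by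
      apply FreeGroup.ext_hom
      intro i
      have hi : i = 0 := Subsingleton.elim _ _
      subst hi
      exact h
    ext x
    exact DFunLike.congr_fun this x
  have hr : Set.range (fun ψ : MulAut (F 1) => ψ (FreeGroup.of 0)) ⊆
      {ONE.t ^ (1 : ℤ), ONE.t ^ (-1 : ℤ)} := by
    rintro _ ⟨ψ, rfl⟩
    change ψ ONE.t ∈ _
    obtain ⟨a, ha⟩ : ∃ a : ℤ, ψ ONE.t = ONE.t ^ a := ⟨_, ONE.eq_zpow _⟩
    obtain ⟨b, hb⟩ : ∃ b : ℤ, ψ⁻¹ ONE.t = ONE.t ^ b := ⟨_, ONE.eq_zpow _⟩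
    have hab : a * b = 1 := by
      have h1 : ψ (ψ⁻¹ ONE.t) = ONE.t := MulAut.apply_inv_self _ _ _
      rw [hb, map_zpow, ha, ← zpow_mul] at h1
      apply ONE.zpow_inj
      rw [h1, zpow_one]
    rcases Int.eq_one_or_neg_one_of_mul_eq_one hab with h1 | h1
    · left; rw [ha, h1]
    · right; rw [ha, h1]; rfl
  have hfin : Finite (Set.range (fun ψ : MulAut (F 1) => ψ (FreeGroup.of 0))) :=
    (Set.Finite.subset (Set.toFinite _) hr).to_subtype
  exact Finite.of_injective_finite_range hinj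

theorem okG_pre (hF : S_FROM) (hX : S_FIX) {n : ℕ} (hn : 1 ≤ n) {A : Subgroup (OF n)}
    (h : Full n A) : OkG n (pre A) := by
  rcases Nat.eq_or_lt_of_le hn with h1 | h1
  · subst h1
    refine hX 1 ⊤ _ okG_one le_top ?_
    rw [Subgroup.relIndex_top_right]
    have := finite_aut_one
    exact Subgroup.index_ne_zero_of_finite
  · exact hF n h1 A h

/-- subgroups of finite index -/
theorem full_fi {n : ℕ} {A A' : Subgroup (OF n)} (h : Full n A) (h1 : A' ≤ A)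
    (h2 : A'.relIndex A ≠ 0) : Full n A' := by
  intro B h3 h4
  obtain ⟨K, h5, h6, h7⟩ := h B (h3.trans h1) (by
    rw [← Subgroup.relIndex_mul_relIndex B A' A h3 h1]
    exact mul_ne_zero h4 h2)
  exact ⟨K, h5, h6, fun α hα => h7 α (h1 hα)⟩

/-- subgroups on which the full profinite topology is induced -/
theorem full_sub {n : ℕ} {A C : Subgroup (OF n)} (h : Full n A) (h1 : C ≤ A)
    (h2 : ∀ B : Subgroup (OF n), B ≤ C → B.relIndex C ≠ 0 →
      ∃ D : Subgroup (OF n), D ≤ A ∧ D.relIndex A ≠ 0 ∧ D ⊓ C ≤ B) : Full n C := by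
  intro B h3 h4
  obtain ⟨D, h5, h6, h7⟩ := h2 B h3 h4
  obtain ⟨K, h8, h9, h10⟩ := h D h5 h6
  exact ⟨K, h8, h9, fun α hα hg => h7 ⟨h10 α (h1 hα) hg, hα⟩⟩

/-- overgroups -/
theorem full_over {n : ℕ} {A A' : Subgroup (OF n)} (h : Full n A) (h1 : A ≤ A')
    (K₀ : Subgroup (F n)) (hK₀ : K₀.Characteristic) (hK₀f : K₀.FiniteIndex)
    (h2 : ∀ α : MulAut (F n), (α : OF n) ∈ A' → (∃ g, ConjMod K₀ α g) → (α : OF n) ∈ A) :
    Full n A' := by
  intro B h3 h4
  obtain ⟨K, h5, h6, h7⟩ := h (B ⊓ A) inf_le_right (by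
    rw [Subgroup.inf_relIndex_right]
    intro h0
    exact h4 (Subgroup.relIndex_eq_zero_of_le_right h1 h0))
  refine ⟨K ⊓ K₀, ASM.char_inf h5 hK₀, inferInstance, ?_⟩
  rintro α hα ⟨g, hg⟩
  exact (h7 α (h2 α hα ⟨g, fun x => (hg x).2⟩) ⟨g, fun x => (hg x).1⟩).1

/-- the group `step G` -/
def stepG {n : ℕ} (G : Subgroup (MulAut (F n))) : Subgroup (MulAut (F (n + 1))) where
  carrier := step (G : Set (MulAut (F n)))
  mul_mem' := by
    rintro ψ₁ ψ₂ ⟨σ₁, hσ₁, h1, u₁, v₁, h2⟩ ⟨σ₂, hσ₂, h1', u₂, v₂, h2'⟩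
    refine ⟨σ₁ * σ₂, G.mul_mem hσ₁ hσ₂, fun x => ?_, ?_⟩
    · rw [MulAut.mul_apply, h1', h1, MulAut.mul_apply]
    · rcases h2 with h2 | h2 <;> rcases h2' with h2' | h2'
      · refine ⟨σ₁ u₂ * u₁, v₁ * σ₁ v₂, Or.inl ?_⟩
        rw [MulAut.mul_apply, h2', map_mul, map_mul, h1, h1, h2, map_mul, map_mul]
        group
      · refine ⟨σ₁ u₂ * v₁⁻¹, u₁⁻¹ * σ₁ v₂, Or.inr ?_⟩
        rw [MulAut.mul_apply, h2', map_mul, map_mul, map_inv, h1, h1, h2, map_mul, map_mul,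
          map_inv, map_inv]
        group
      · refine ⟨σ₁ u₂ * u₁, v₁ * σ₁ v₂, Or.inr ?_⟩
        rw [MulAut.mul_apply, h2', map_mul, map_mul, h1, h1, h2, map_mul, map_mul]
        group
      · refine ⟨σ₁ u₂ * v₁⁻¹, u₁⁻¹ * σ₁ v₂, Or.inl ?_⟩
        rw [MulAut.mul_apply, h2', map_mul, map_mul, map_inv, h1, h1, h2, map_mul, map_mul,
          map_inv, map_inv]
        group
  one_mem' := ⟨1, G.one_mem, fun _ => rfl, 1, 1, Or.inl (by simp)⟩
  inv_mem' := by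
    rintro ψ ⟨σ, hσ, h1, u, v, h2⟩
    have h3 : ∀ x, ψ⁻¹ (inc n x) = inc n (σ⁻¹ x) := by
      intro x
      apply ψ.injective
      rw [h1, MulAut.apply_inv_self, MulAut.apply_inv_self]
    refine ⟨σ⁻¹, G.inv_mem hσ, h3, ?_⟩
    rcases h2 with h2 | h2
    · refine ⟨σ⁻¹ u⁻¹, σ⁻¹ v⁻¹, Or.inl ?_⟩
      have h4 := congrArg (ψ⁻¹ : MulAut (F (n + 1))) h2
      rw [MulAut.inv_apply_self, map_mul, map_mul, h3, h3] at h4
      rw [map_inv, map_inv, map_inv, map_inv]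
      conv_rhs => rw [h4]
      group
    · refine ⟨σ⁻¹ v, σ⁻¹ u, Or.inr ?_⟩
      have h4 := congrArg (ψ⁻¹ : MulAut (F (n + 1))) h2
      rw [MulAut.inv_apply_self, map_mul, map_mul, map_inv, h3, h3] at h4
      conv_rhs => rw [h4]
      group

/-- the group `Prd G T` -/
def prdG {k l : ℕ} (G : Subgroup (MulAut (F k))) (T : Subgroup (MulAut (F l))) :
    Subgroup (MulAut (F (k + l))) where
  carrier := Prd (G : Set (MulAut (F k))) (T : Set (MulAut (F l)))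
  mul_mem' := by
    rintro φ φ' ⟨g, σ, hσ, τ, hτ, h1, h2⟩ ⟨g', σ', hσ', τ', hτ', h1', h2'⟩
    refine ⟨φ g' * g, σ * σ', G.mul_mem hσ hσ', τ * τ', T.mul_mem hτ hτ', fun x => ?_,
      fun y => ?_⟩
    · rw [MulAut.mul_apply, h1', map_mul, map_mul, map_inv, h1, MulAut.mul_apply]
      group
    · rw [MulAut.mul_apply, h2', map_mul, map_mul, map_inv, h2, MulAut.mul_apply]
      group
  one_mem' := ⟨1, 1, G.one_mem, 1, T.one_mem, fun x => by simp, fun x => by simp⟩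
  inv_mem' := by
    rintro φ ⟨g, σ, hσ, τ, hτ, h1, h2⟩
    refine ⟨(φ⁻¹ g)⁻¹, σ⁻¹, G.inv_mem hσ, τ⁻¹, T.inv_mem hτ, fun x => ?_, fun y => ?_⟩
    · apply φ.injective
      simp only [map_mul, map_inv, inv_inv, h1, MulAut.apply_inv_self]
      group
    · apply φ.injective
      simp only [map_mul, map_inv, inv_inv, h2, MulAut.apply_inv_self]
      group

/-- the group of the automorphisms of the cover which extend to elements of `G` -/
def covG {n m : ℕ} (G : Subgroup (MulAut (F n))) (L : Subgroup (F n)) (θ : F m ≃* L) :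
    Subgroup (MulAut (F m)) where
  carrier := {β | ∃ α ∈ G, ∀ x : F m, α (θ x : F n) = (θ (β x) : F n)}
  mul_mem' := by
    rintro β β' ⟨α, h1, h2⟩ ⟨α', h1', h2'⟩
    refine ⟨α * α', G.mul_mem h1 h1', fun x => ?_⟩
    rw [MulAut.mul_apply, h2', h2, MulAut.mul_apply]
  one_mem' := ⟨1, G.one_mem, fun _ => rfl⟩
  inv_mem' := by
    rintro β ⟨α, h1, h2⟩
    refine ⟨α⁻¹, G.inv_mem h1, fun x => ?_⟩
    apply α.injective
    rw [h2, MulAut.apply_inv_self, MulAut.apply_inv_self]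

variable (hF : S_FROM) (hX : S_FIX) (hO : S_OUT)
include hF hX hO

theorem full_step (hS : S_STEP) {n : ℕ} (hn : 1 ≤ n) {A : Subgroup (OF n)} (h : Full n A) :
    Full (n + 1) ((stepG (pre A)).map (QuotientGroup.mk' _)) :=
  hO _ _ (hS n (pre A) (stepG (pre A)) (okG_pre hF hX hn h) (fun _ => Iff.rfl))

theorem full_prod (hP : S_PROD) {k l : ℕ} (hk : 1 ≤ k) (hl : 1 ≤ l) {A : Subgroup (OF k)}
    {B : Subgroup (OF l)} (h : Full k A) (h' : Full l B) :
    Full (k + l) ((prdG (pre A) (pre B)).map (QuotientGroup.mk' _)) :=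
  hO _ _ (hP k l (pre A) (pre B) (prdG (pre A) (pre B)) (okG_pre hF hX hk h)
    (okG_pre hF hX hl h') (fun _ => Iff.rfl))

theorem full_cov (hC : S_COVER) {n m : ℕ} (hn : 2 ≤ n) (L : Subgroup (F n)) (hL : L.FiniteIndex)
    (θ : F m ≃* L) {A : Subgroup (OF n)} (h : Full n A) :
    1 ≤ m ∧ Full m ((covG (pre A) L θ).map (QuotientGroup.mk' _)) := by
  have h1 : OkG m (covG (pre A) L θ) :=
    hC n m (pre A) (covG (pre A) L θ) L θ hn hL (okG_pre hF hX (by omega) h) (fun _ => Iff.rfl)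
  exact ⟨h1.1, hO _ _ h1⟩

end Pool.Agent.V5helper35.ASF
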