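import Pool.Agent.V5helper35.AS.Fin2
import Pool.Agent.V5helper35.AS.Punc
import Pool.Agent.V5helper82.AS.STEP
import Pool.Agent.V5helper36.AS.PROD
import Pool.Agent.V5helper6.AS.FIX
import Pool.Agent.V5helper91.AS.FROM
import Pool.Agent.V5helper7.AS.CPOW
import Pool.Agent.V5helper1.AS.MPOW
import Pool.Agent.V5helper84.AS.COVA
import Pool.Agent.V5helper84.AS.COVER

/-!
# Project AS, part 2: the closure properties
-/

set_option autoImplicit false

namespace Pool.Agent.V5helper35.ASF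

open Pool.Agent.R387.TC Pool.Agent.N77.CS

theorem F_FROM : Pool.Agent.V5helper35.AS.S_FROM := Pool.Agent.V5helper91.AS.t_FROM
theorem F_FIX : Pool.Agent.V5helper35.AS.S_FIX := Pool.Agent.V5helper6.AS.t_FIX
theorem F_OUT : Pool.Agent.V5helper35.AS.S_OUT := Pool.Agent.V5helper6.AS.t_OUT
theorem F_STEP : Pool.Agent.V5helper35.AS.S_STEP := Pool.Agent.V5helper82.AS.t_STEP
theorem F_PROD : Pool.Agent.V5helper35.AS.S_PROD := Pool.Agent.V5helper36.AS.t_PROD WR.main
theorem F_COVER : Pool.Agent.V5helper35.AS.S_COVER :=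
  Pool.Agent.V5helper84.AS.t_COVER (Pool.Agent.V5helper84.AS.t_COVA
    (Pool.Agent.V5helper7.AS.t_CPOW Pool.Agent.V5helper1.AS.t_MPOW))

theorem full_one : Full 1 ⊤ := by
  have h := F_OUT 1 ⊤ okG_one
  have h2 : (⊤ : Subgroup (MulAut (F 1))).map
      (QuotientGroup.mk' (MulAut.conj (G := F 1)).range) = ⊤ :=
    Subgroup.map_top_of_surjective _ (QuotientGroup.mk'_surjective _)
  rw [h2] at h
  exact h

theorem fullStep {n : ℕ} (hn : 1 ≤ n) {A : Subgroup (OF n)} (h : Full n A) :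
    Full (n + 1) ((stepG (pre A)).map (QuotientGroup.mk' _)) :=
  full_step F_FROM F_FIX F_OUT F_STEP hn h

theorem fullProd {k l : ℕ} (hk : 1 ≤ k) (hl : 1 ≤ l) {A : Subgroup (OF k)}
    {B : Subgroup (OF l)} (h : Full k A) (h' : Full l B) :
    Full (k + l) ((prdG (pre A) (pre B)).map (QuotientGroup.mk' _)) :=
  full_prod F_FROM F_FIX F_OUT F_PROD hk hl h h'

theorem fullCov {n m : ℕ} (hn : 2 ≤ n) (L : Subgroup (F n)) (hL : L.FiniteIndex)
    (θ : F m ≃* L) {A : Subgroup (OF n)} (h : Full n A) :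
    1 ≤ m ∧ Full m ((covG (pre A) L θ).map (QuotientGroup.mk' _)) :=
  full_cov F_FROM F_FIX F_OUT F_COVER hn L hL θ h

theorem fullPunc {n m : ℕ} (hn : 1 ≤ n) {A : Subgroup (OF n)} (h : Full n A)
    (p : F (m + 1) →* F n) (hp : Function.Surjective p) (hpt : p (tt m) = 1)
    (f : pre A →* OF (m + 1))
    (hf : ∀ σ : pre A, ∃ ψ : MulAut (F (m + 1)), (ψ : OF (m + 1)) = f σ ∧
      ψ (tt m) = tt m ∧ ∀ x, p (ψ x) = (σ : MulAut (F n)) (p x)) :
    Full (m + 1) f.range := fun B _ hBf =>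
  punc (pre A) (okG_pre F_FROM F_FIX hn h).2.1 p hp hpt f hf B hBf

theorem fullLift {n m : ℕ} {A : Subgroup (OF n)} (h : Full n A)
    (p : F m →* F n) (hp : Function.Surjective p) (f : A →* OF m)
    (hf : ∀ a : A, ∃ (α : MulAut (F n)) (β : MulAut (F m)), (α : OF n) = a ∧ (β : OF m) = f a ∧
      ∀ x, p (β x) = α (p x)) :
    Full m f.range := fun B _ hBf => lift A h p hp f hf B hBf

/-- a surjection onto a free group of positive rank -/
theorem pos_of_surj {n m : ℕ} (hn : 1 ≤ n) (p : F m →* F n) (hp : Function.Surjective p) :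
    1 ≤ m := by
  rcases Nat.eq_zero_or_pos m with rfl | h
  · exfalso
    obtain ⟨x, hx⟩ := hp (FreeGroup.of ⟨0, hn⟩)
    have : x = 1 := Subsingleton.elim _ _
    rw [this, map_one] at hx
    exact FreeGroup.of_ne_one _ hx.symm
  · exact h

end Pool.Agent.V5helper35.ASF
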