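import Pool.Agent.V5helper35.AS.Ama
import Pool.Agent.V5helper26.AS.CEN
import Pool.Agent.V5helper65.AS.CYC
import Pool.Agent.V5helper65.AS.GAD
import Pool.Agent.V5helper69.AS.POT
import Pool.Agent.V5helper72.AS.CW
import Pool.Agent.V5helper87.AS.FIXW
import Pool.Agent.V5helper91.AS.AMA

/-!
# Project AS, part 3: the assembly
-/

set_option autoImplicit false

namespace Pool.Agent.V5helper35.ASF

open Pool.Agent.R387.TC Pool.Agent.N77.CS
open Pool.Agent.V5helper35.AS (NotPow)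

theorem F_CYC : Pool.Agent.V5helper35.AS.S_CYC := Pool.Agent.V5helper65.AS.t_CYC
theorem F_CEN : Pool.Agent.V5helper35.AS.S_CEN := Pool.Agent.V5helper26.AS.t_CEN
theorem F_POT : Pool.Agent.V5helper35.AS.S_POT := Pool.Agent.V5helper69.AS.t_POT F_CYC
theorem F_CW : Pool.Agent.V5helper35.AS.S_CW := Pool.Agent.V5helper72.AS.t_CW F_CEN F_POT
theorem F_GAD : Pool.Agent.V5helper35.AS.S_GAD := Pool.Agent.V5helper65.AS.t_GAD F_CYC
theorem F_FIXW : Pool.Agent.V5helper35.AS.S_FIXW := Pool.Agent.V5helper87.AS.t_FIXW F_POT F_CEN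
theorem F_AMA : Pool.Agent.V5helper35.AS.S_AMA := Pool.Agent.V5helper91.AS.Ama.t_AMA F_GAD F_CW

theorem fullAma {k l : ℕ} (hk : 1 ≤ k) (w : F k) (hw : NotPow w)
    {A : Subgroup (OF k)} {B : Subgroup (OF (l + 1))} (hA : Full k A) (hB : Full (l + 1) B)
    (hAw : ∀ σ : MulAut (F k), (σ : OF k) ∈ A → ∃ g, σ w = g * w * g⁻¹)
    (hBt : ∀ τ : MulAut (F (l + 1)), (τ : OF (l + 1)) ∈ B → ∃ g, τ (tt l) = g * tt l * g⁻¹) :
    Full (k + l) ((amaG (fixG (pre A) w) (fixG (pre B) (tt l)) w).map (QuotientGroup.mk' _)) :=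
  full_ama F_FIXW F_AMA hk w hw hA hB hAw hBt

end Pool.Agent.V5helper35.ASF
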