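import Pool.Agent.V5helper35.AS.StmA

/-!
# Project AS, part 4: HNN extensions along a cyclic subgroup

`F_{l+1} = F_l * ⟨s⟩` is the HNN extension of `B = F_l * ⟨c⟩` with the stable letter `s`, `s w s⁻¹ = c`, `w ∈ F_l`.
-/

set_option autoImplicit false

namespace Pool.Agent.V5helper35.AS

open Pool.Agent.R387.TC Pool.Agent.N77.CS

/-- the embedding of `B = F_l * ⟨c⟩` in `F_l * ⟨s⟩` which maps `c` to `s w s⁻¹` -/
def ehn {l : ℕ} (w : F l) : F (l + 1) →* F (l + 1) := homExt (inc l) (tt l * inc l w * (tt l)⁻¹)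

/-- **GAD2** (uses CYC; 150 lines; compare `Pool.Agent.V5helper65.AS.GAD`, the proof of S_GAD).  `F_l * ⟨s⟩` induces
the full profinite topology on the image of `ehn w`.

Proof.  Let `Q = F (l + 1) / KB` and `N` the order of the image `t'` of `tt l` in `Q`.  Take `ρ`, `Z`, `z` from CYC for `w ∈ F_l`
and `N`.  As in GAD there is an injective map `ι : Q → Z × (T \ Q)` with `(ρ w, id) (ι q) = ι (t' * q)`.  Let
`Y = Q ⊕ (Z × (T \ Q))`; `F_l` acts on `Q` by the left multiplication (`x ↦ q (inc x)`) and on `Z × (T \ Q)` by `ρ` on the first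
factor, and `s` acts by a permutation of the finite set `Y` which maps `inr (ι q)` to `inl q` for all `q ∈ Q` (a
partial injection extends to a permutation: `Equiv.extendSubtype`).  So `Φ : F (l + 1) →* Perm Y` with
`Φ (s w s⁻¹) (inl q) = Φ s (Φ w (inr (ι q))) = Φ s (inr (ι (t' q))) = inl (t' q)`, and hence
`Φ (ehn w x) (inl q) = inl (x̄ q)` for all `x`.  `K = core (l + 1) (Perm Y)`. -/
def S_GAD2 : Prop := ∀ (l : ℕ) (w : F l), w ≠ 1 →
  ∀ KB : Subgroup (F (l + 1)), KB.Normal → KB.FiniteIndex →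
    ∃ K : Subgroup (F (l + 1)), K.Characteristic ∧ K.FiniteIndex ∧
      ∀ x : F (l + 1), ehn w x ∈ K → x ∈ KB

/-- **HNC** (uses GAD2, CW, POT, CEN; 250 lines; compare `Pool.Agent.V5helper91.AS.AMA`).

Proof.  Write `e = ehn w`, `s = c = tt l`.  For `τ ∈ D` (so `τ c = c`) with `τ (inc w) = h * inc w * h⁻¹` the homomorphism
`φ`: `inc x ↦ e (τ (inc x))`, `s ↦ s * e h⁻¹` satisfies `φ ∘ e = e ∘ τ` (on `c`: `φ (s w s⁻¹) = s e(h)⁻¹ e (h w h⁻¹) e(h) s⁻¹`)
and it is an automorphism: its inverse is made in the same way from `τ⁻¹` and `h' = τ⁻¹ (h⁻¹)`.  So every `τ ∈ D`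
comes from some `φ ∈ P`.  The twist `T : inc x ↦ inc x, s ↦ s * inc w` is in `P` (with `τ = 1`).

Conversely if `φ ∈ P` comes from `τ = 1` then `φ` fixes `inc x` for all `x`, and `s w s⁻¹`, so `s⁻¹ φ (s)` commutes with
`inc w`, so by CEN (for `inc w`, which is `NotPow`: use the retraction `F (l + 1) → F l`) `φ s = s * inc w ^ j`,
`φ = T ^ j`.

`CongG`: let `V ≤ P` be of finite index, without loss of generality normal in `P`.  There is `d ≥ 1` with `T ^ d ∈ V`.  POT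
for `inc w` gives `M` characteristic with `inc w ^ i ∈ M → d ∣ i`.  `V₁ = V ⊓ trivSub M` (`trivSub_fin`) has finite
index in `P`.  Let `W = {τ ∈ D | ∃ φ ∈ V₁, φ ∘ e = e ∘ τ}`; it has finite index in `D`.  `CongG` for `D` gives `KD`, and GAD2
gives `K₁` for `KD`; `K = K₁ ⊓ M`.  If `φ ∈ P` (with `τ`) acts trivially modulo `K` then `e (τ y * y⁻¹) = φ (e y) * (e y)⁻¹ ∈ K₁`, so
`τ` acts trivially modulo `KD`, so `τ ∈ W`, `φ₁ ∈ V₁` with the same `τ` (`e` is injective), `φ₁⁻¹ * φ` comes from `1`,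
so it is `T ^ j`, and it acts trivially modulo `M`: `T ^ j s * s⁻¹ = s * inc w ^ j * s⁻¹ ∈ M`, so `d ∣ j`, `T ^ j ∈ V`,
`φ ∈ V`.

`Norm` with `H = zpowers (e c)`, `e c = s w s⁻¹`: all `φ ∈ P` fix `e c`, which is `NotPow` (a conjugate of `inc w`).  CW
gives `K`.  `conj (e c) ∈ P` with `τ = conj c ∈ D`. -/
def S_HNC : Prop := ∀ (l : ℕ) (D : Subgroup (MulAut (F (l + 1)))) (w : F l)
  (P : Subgroup (MulAut (F (l + 1)))), NotPow w → CongG (l + 1) D →
  (∀ τ ∈ D, τ (tt l) = tt l) → (∀ τ ∈ D, ∃ h, τ (inc l w) = h * inc l w * h⁻¹) →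
  MulAut.conj (tt l) ∈ D →
  (∀ φ, φ ∈ P ↔ ∃ τ ∈ D, ∀ y, φ (ehn w y) = ehn w (τ y)) → OkG (l + 1) P

end Pool.Agent.V5helper35.AS
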