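import Pool.Agent.V5helper35.AS.Ama
import Pool.Agent.V5helper35.AS.StmB

/-!
# Project AS, part 4: HNN extensions along cyclic subgroups, for `Out`
-/

set_option autoImplicit false

namespace Pool.Agent.V5helper35.ASF

open Pool.Agent.R387.TC Pool.Agent.N77.CS
open Pool.Agent.V5helper35.AS (OkG CongG NotPow ehn S_FIXW S_HNC)

/-- the HNN extension -/
def loopG {l : ℕ} (D : Subgroup (MulAut (F (l + 1)))) (w : F l) :
    Subgroup (MulAut (F (l + 1))) where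
  carrier := {φ | ∃ τ ∈ D, ∀ y, φ (ehn w y) = ehn w (τ y)}
  mul_mem' := by
    rintro φ φ' ⟨τ, hτ, h2⟩ ⟨τ', hτ', h2'⟩
    refine ⟨τ * τ', D.mul_mem hτ hτ', fun y => ?_⟩
    rw [MulAut.mul_apply, h2', h2, MulAut.mul_apply]
  one_mem' := ⟨1, D.one_mem, fun _ => rfl⟩
  inv_mem' := by
    rintro φ ⟨τ, hτ, h2⟩
    refine ⟨τ⁻¹, D.inv_mem hτ, fun y => ?_⟩
    apply φ.injective
    rw [h2, MulAut.apply_inv_self, MulAut.apply_inv_self]

theorem full_loop (hW : S_FIXW) (hH : S_HNC) {l : ℕ} (w : F l) (hw : NotPow w)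
    {B : Subgroup (OF (l + 1))} (hB : Full (l + 1) B)
    (hBt : ∀ τ : MulAut (F (l + 1)), (τ : OF (l + 1)) ∈ B → ∃ g, τ (tt l) = g * tt l * g⁻¹)
    (hBw : ∀ τ : MulAut (F (l + 1)), (τ : OF (l + 1)) ∈ B →
      ∃ g, τ (inc l w) = g * inc l w * g⁻¹) :
    Full (l + 1) ((loopG (fixG (pre B) (tt l)) w).map (QuotientGroup.mk' _)) := by
  have h2 : CongG (l + 1) (fixG (pre B) (tt l)) := hW (l + 1) (pre B) _ (tt l)
    (okG_pre F_FROM F_FIX (by omega) hB).2.1 (conj_mem_pre B) (notPow_tt l) hBt (fun _ => Iff.rfl)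
  exact F_OUT _ _ (hH l (fixG (pre B) (tt l)) w _ hw h2 (fun τ h => h.2)
    (fun τ h => hBw τ h.1) ⟨conj_mem_pre B (tt l), by rw [MulAut.conj_apply]; group⟩
    (fun _ => Iff.rfl))

end Pool.Agent.V5helper35.ASF
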