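import Pool.Agent.V5helper35.AS.Fin4
import Pool.Agent.V5helper35.AS.Hnc
import Pool.Agent.V5helper3.AS.HNC
import Pool.Agent.V5helper76.AS.GAD2

/-!
# Project AS, part 4: the assembly
-/

set_option autoImplicit false

namespace Pool.Agent.V5helper35.ASF

open Pool.Agent.R387.TC Pool.Agent.N77.CS
open Pool.Agent.V5helper35.AS (NotPow)

theorem F_GAD2 : Pool.Agent.V5helper35.AS.S_GAD2 := Pool.Agent.V5helper76.AS.t_GAD2 F_CYC
theorem F_HNC : Pool.Agent.V5helper35.AS.S_HNC :=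
  Pool.Agent.V5helper3.AS.t_HNC F_GAD2 F_CW F_POT F_CEN

theorem fullLoop {l : ℕ} (w : F l) (hw : NotPow w)
    {B : Subgroup (OF (l + 1))} (hB : Full (l + 1) B)
    (hBt : ∀ τ : MulAut (F (l + 1)), (τ : OF (l + 1)) ∈ B → ∃ g, τ (tt l) = g * tt l * g⁻¹)
    (hBw : ∀ τ : MulAut (F (l + 1)), (τ : OF (l + 1)) ∈ B →
      ∃ g, τ (inc l w) = g * inc l w * g⁻¹) :
    Full (l + 1) ((loopG (fixG (pre B) (tt l)) w).map (QuotientGroup.mk' _)) :=
  full_loop F_FIXW F_HNC w hw hB hBt hBw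

end Pool.Agent.V5helper35.ASF
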