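import Pool.Agent.V5helper35.AS.Theta
import Pool.Agent.R387.TC.Step

/-!
# Project AS: the main lemma
-/

set_option autoImplicit false
set_option linter.unusedSimpArgs false

namespace Pool.Agent.V5helper35.AS

open FreeGroup (of)
open Pool.Agent.R387.TC (centre core mem_core core_char core_fin)

section

variable {W W' : Type} [Group W] [Group W']

theorem mono_inv (π : Equiv.Perm (Fin 4)) (d : Fin 4 → W) :
    (mono π d)⁻¹ = mono π⁻¹ (fun i => (d (π⁻¹ i))⁻¹) := by
  rw [inv_eq_iff_mul_eq_one, mono_mul, ← mono_one]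
  apply mono_eq
  · simp
  all_goals simp

theorem th_fun (φ : W →* W') (c A B : W) (g : F) :
    ∃ (π : Equiv.Perm (Fin 4)) (d : Fin 4 → W), Th c A B g = mono π d ∧
      Th (φ c) (φ A) (φ B) g = mono π (fun i => φ (d i)) := by
  induction g using FreeGroup.induction_on with
  | C1 =>
    refine ⟨1, fun _ => 1, ?_, ?_⟩
    · rw [map_one, mono_one]
    · rw [map_one]
      simp only [map_one]
      rw [mono_one]
  | of i =>
    fin_cases i
    · refine ⟨px, _, Th_X c A B, ?_⟩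
      refine (Th_X _ _ _).trans ?_
      rw [tX]
      apply mono_eq rfl <;> simp
    · refine ⟨py, _, Th_Y c A B, ?_⟩
      refine (Th_Y _ _ _).trans ?_
      rw [tY]
      apply mono_eq rfl <;> simp
  | inv_of i ih =>
    obtain ⟨π, d, h1, h2⟩ := ih
    refine ⟨π⁻¹, fun i => (d (π⁻¹ i))⁻¹, ?_, ?_⟩
    · rw [map_inv]
      exact (congrArg _ h1).trans (mono_inv _ _)
    · rw [map_inv]
      refine (congrArg _ h2).trans ((mono_inv _ _).trans ?_)
      simp only [map_inv]
  | mul a b iha ihb =>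
    obtain ⟨π, d, h1, h2⟩ := iha
    obtain ⟨π', d', h1', h2'⟩ := ihb
    refine ⟨π * π', fun i => d (π' i) * d' i, ?_, ?_⟩
    · rw [map_mul, h1, h1', mono_mul]
    · rw [map_mul, h2, h2', mono_mul]
      simp only [map_mul]

theorem th_rho (A B : W) (b : F →* W) (hA : b (of 0) = A) (hB : b (of 1) = B) (w : F) :
    ∃ e : Fin 4 → W, e 0 = b w ∧
      ∀ u, Th 1 A B (rho w u) * dg e = dg e * Th 1 A B u := by
  induction w using FreeGroup.induction_on with
  | C1 =>
    refine ⟨fun _ => 1, by rw [map_one], fun u => ?_⟩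
    rw [map_one, MulAut.one_apply, dg, mono_one, mul_one, one_mul]
  | of i =>
    fin_cases i
    · refine ⟨![A, 1, 1, A], hA.symm, fun u => ?_⟩
      have := th_dl A B u
      rw [← rho_X] at this
      exact this
    · refine ⟨![B, B, 1, 1], hB.symm, fun u => ?_⟩
      have := th_ep A B u
      rw [← rho_Y] at this
      exact this
  | inv_of i ih =>
    obtain ⟨e, h1, h2⟩ := ih
    refine ⟨fun j => (e j)⁻¹, ?_, fun u => ?_⟩
    · rw [map_inv]
      exact congrArg _ h1
    · have h3 := h2 ((rho (of i)⁻¹) u)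
      have h4 : rho (of i) ((rho (of i)⁻¹) u) = u := by
        rw [← MulAut.mul_apply, ← map_mul, mul_inv_cancel, map_one, MulAut.one_apply]
      rw [h4] at h3
      rw [← dg_inv]
      show Th 1 A B ((rho (of i)⁻¹) u) * (dg e)⁻¹ = (dg e)⁻¹ * Th 1 A B u
      rw [mul_inv_eq_iff_eq_mul, mul_assoc, h3, inv_mul_cancel_left]
  | mul a c iha ihc =>
    obtain ⟨e, h1, h2⟩ := iha
    obtain ⟨e', h1', h2'⟩ := ihc
    refine ⟨fun j => e j * e' j, by rw [map_mul, ← h1, ← h1'], fun u => ?_⟩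
    rw [← dg_mul, map_mul, MulAut.mul_apply, ← mul_assoc, h2, mul_assoc, h2', mul_assoc]

end

/-- characteristic subgroups are invariant under `ze` -/
theorem char_mem {K : Subgroup F} (hK : K.Characteristic) (α : MulAut F) {u : F} (hu : u ∈ K) :
    α u ∈ K := (Subgroup.characteristic_iff_le_comap.1 hK) α hu

theorem main_lemma (Δ : Subgroup F) [Δ.Normal] [Δ.FiniteIndex] :
    ∃ K : Subgroup F, K.Characteristic ∧ K.FiniteIndex ∧
      ∀ w g : F, (∀ u, rho w u * (g * u * g⁻¹)⁻¹ ∈ K) → w ∈ Δ := by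
  obtain ⟨K₁, hc1, hf1, hK1⟩ := centre (0 : Fin 1) Δ
  have hc2 := core_char 2 (Multiplicative (ZMod 2))
  have hf2 := core_fin 2 (Multiplicative (ZMod 2))
  let N : Subgroup F := K₁ ⊓ core 2 (Multiplicative (ZMod 2))
  have hN : N.Normal := inferInstance
  have hNf : N.FiniteIndex := inferInstance
  let b : F →* F ⧸ N := QuotientGroup.mk' N
  have hb : ∀ g, b g = 1 → ∀ f : F →* Multiplicative (ZMod 2), f g = 1 := fun g hg =>
    mem_core.1 ((QuotientGroup.eq_one_iff g).1 hg).2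
  have hm : (Multiplicative.ofAdd (1 : ZMod 2)) ≠ 1 := by decide
  have ha1 : b (of 0) ≠ 1 := fun h => hm (by
    have := hb _ h (mk2 (Multiplicative.ofAdd 1) 1)
    rwa [mk2_X] at this)
  have hb1 : b (of 1) ≠ 1 := fun h => hm (by
    have := hb _ h (mk2 1 (Multiplicative.ofAdd 1))
    rwa [mk2_Y] at this)
  have hab : b (of 1) * b (of 0) ≠ 1 := fun h => hm (by
    rw [← map_mul] at h
    have := hb _ h (mk2 (Multiplicative.ofAdd 1) 1)
    rwa [map_mul, mk2_X, mk2_Y, one_mul] at this)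
  -- the wreath product
  let Q := F ⧸ N
  let W := RegularWreathProduct (Multiplicative (ZMod 2)) Q
  have hQ : Finite Q := inferInstance
  have hW : Finite W := inferInstance
  classical
  let c : W := ⟨Pi.mulSingle 1 (Multiplicative.ofAdd 1), 1⟩
  let φ : W →* Q := RegularWreathProduct.rightHom
  let A : W := RegularWreathProduct.inl (b (of 0))
  let B : W := RegularWreathProduct.inl (b (of 1))
  have hφc : φ c = 1 := rfl
  have hφA : φ A = b (of 0) := rfl
  have hφB : φ B = b (of 1) := rfl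
  have hcent : ∀ τ : W, τ * c = c * τ → φ τ = 1 := by
    intro τ h
    by_contra hne
    have h1 := congrArg (fun v : W => v.left 1) h
    have h2 : τ.left 1 * (Pi.mulSingle (M := fun _ : Q => Multiplicative (ZMod 2)) 1
        (Multiplicative.ofAdd 1) : Q → Multiplicative (ZMod 2)) (τ.right⁻¹ * 1) =
        (Pi.mulSingle (M := fun _ : Q => Multiplicative (ZMod 2)) 1
        (Multiplicative.ofAdd 1) : Q → Multiplicative (ZMod 2)) 1 * τ.left ((1 : Q)⁻¹ * 1) := h1
    have h3 : τ.right⁻¹ * 1 ≠ 1 := by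
      rw [mul_one]
      exact fun h4 => hne (inv_eq_one.1 h4)
    rw [Pi.mulSingle_eq_of_ne h3, Pi.mulSingle_eq_same, inv_one, mul_one, mul_one, mul_comm] at h2
    exact hm (mul_eq_left.1 h2.symm)
  let Θ : F →* Equiv.Perm (Fin 4 × W) := Th c A B
  have hΘf : Θ.ker.FiniteIndex := inferInstance
  obtain ⟨K, hcK, hfK, hK⟩ := centre (0 : Fin 1) Θ.ker
  have hKn : K.Normal := inferInstance
  refine ⟨K, hcK, hfK, fun w g h => ?_⟩
  have hKΘ : ∀ u ∈ K, Θ u = 1 := fun u hu => hK u (fun x => by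
    have h1 := K.mul_mem hu (hKn.conj_mem _ (K.inv_mem hu) x)
    have h2 : u * (x * u⁻¹ * x⁻¹) = u * x * u⁻¹ * x⁻¹ := by group
    rwa [h2] at h1)
  -- (i)
  have hz : Θ (ze g) = Θ g := by
    have h1 : g⁻¹ * ze g ∈ Θ.ker := by
      apply hK
      intro v
      obtain ⟨u, rfl⟩ := ze.surjective v
      have h2 := h (ze u)
      have h3 := char_mem hcK ze (h u)
      rw [map_mul, map_inv, map_mul, map_mul, map_inv] at h3
      have h4 : ze (rho w u) = rho w (ze u) := by
        rw [← MulAut.mul_apply, ← rho_ze, MulAut.mul_apply]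
      rw [h4] at h3
      have h5 := K.mul_mem (K.inv_mem h2) h3
      have h7 := hKn.conj_mem _ (K.inv_mem h5) g⁻¹
      have h8 : g⁻¹ * ((rho w (ze u) * (g * ze u * g⁻¹)⁻¹)⁻¹ *
          (rho w (ze u) * (ze g * ze u * (ze g)⁻¹)⁻¹))⁻¹ * g⁻¹⁻¹ =
          g⁻¹ * ze g * ze u * (g⁻¹ * ze g)⁻¹ * (ze u)⁻¹ := by group
      rwa [h8] at h7
    have h2 : Θ (g⁻¹ * ze g) = 1 := h1
    rwa [map_mul, map_inv, inv_mul_eq_one, eq_comm] at h2
  -- (ii)
  obtain ⟨π, d, hπ, hπ'⟩ := th_fun φ c A B g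
  rw [hφc, hφA, hφB] at hπ'
  have h1 := th_ze c A B g
  have h2 : Th c A B (ze g) = mono π d := hz.trans hπ
  rw [h2, hπ, dg, mono_mul, mono_mul] at h1
  have h3 := congrArg (fun T : Equiv.Perm (Fin 4 × W) => (T (0, 1)).2) h1
  have h4 : d 0 * c * 1 = (![c, B, A⁻¹ * c⁻¹ * B⁻¹, A] : Fin 4 → W) (π 0) * d 0 * 1 := h3
  rw [mul_one, mul_one] at h4
  have h5 := congrArg φ h4
  rw [map_mul, map_mul, hφc, mul_one, eq_comm, mul_eq_right] at h5
  have h6 : π 0 = 0 := by
    generalize π 0 = v at h5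
    fin_cases v
    · rfl
    · exact absurd (show φ B = 1 from h5) hb1
    · have h7 : φ (A⁻¹ * c⁻¹ * B⁻¹) = 1 := h5
      rw [map_mul, map_mul, map_inv, map_inv, map_inv, hφc, inv_one, mul_one, hφA, hφB,
        ← mul_inv_rev, inv_eq_one] at h7
      exact absurd h7 hab
    · exact absurd (show φ A = 1 from h5) ha1
  rw [h6] at h4
  have h7 : φ (d 0) = 1 := hcent _ h4
  -- (iii)
  let Θ' : F →* Equiv.Perm (Fin 4 × Q) := Th 1 (b (of 0)) (b (of 1))
  have h8 : ∀ q : Q, Θ' g (0, q) = (0, q) := by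
    intro q
    show Th 1 (b (of 0)) (b (of 1)) g (0, q) = (0, q)
    rw [hπ', mono_apply, h6, h7, one_mul]
  have h9 : ∀ q : Q, Θ' g⁻¹ (0, q) = (0, q) := by
    intro q
    rw [map_inv, Equiv.Perm.inv_eq_iff_eq]
    exact (h8 q).symm
  have hKΘ' : ∀ u ∈ K, Θ' u = 1 := by
    intro u hu
    obtain ⟨π₁, d₁, k1, k2⟩ := th_fun φ c A B u
    rw [hφc, hφA, hφB] at k2
    have k3 : mono π₁ d₁ = 1 := k1.symm.trans (hKΘ u hu)
    show Th 1 (b (of 0)) (b (of 1)) u = 1
    rw [k2]
    ext1 ⟨i, q⟩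
    have k4 : (π₁ i, d₁ i * 1) = (i, (1 : W)) := congrArg (fun T => T (i, 1)) k3
    rw [mul_one] at k4
    have k5 := (Prod.mk.inj k4).1
    have k6 := (Prod.mk.inj k4).2
    rw [mono_apply, k5, k6, map_one, one_mul]
    rfl
  -- (iv)
  obtain ⟨e, he, he'⟩ := th_rho (b (of 0)) (b (of 1)) b rfl rfl w
  have hkey : ∀ (u : F) (a : Q), (∀ q : Q, Θ' u (0, q) = (0, a * q)) → a * b w = b w * a := by
    intro u a hu
    have k1 : Θ' (rho w u) = Θ' (g * u * g⁻¹) := by
      have := hKΘ' _ (h u)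
      rwa [map_mul, map_inv, mul_inv_eq_one] at this
    have k2 : Θ' (rho w u) * dg e = dg e * Θ' u := he' u
    rw [k1] at k2
    have k3 : (Θ' (g * u * g⁻¹) * dg e) (0, 1) = (dg e * Θ' u) (0, 1) := by rw [k2]
    have k4 : (Θ' (g * u * g⁻¹) * dg e) (0, 1) = (0, a * e 0) := by
      rw [map_mul, map_mul, Equiv.Perm.mul_apply, Equiv.Perm.mul_apply, Equiv.Perm.mul_apply,
        dg_apply]
      show Θ' g (Θ' u (Θ' g⁻¹ (0, e 0 * 1))) = _
      rw [h9, hu, h8, mul_one]
    have k5 : (dg e * Θ' u) (0, 1) = (0, e 0 * a) := by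
      rw [Equiv.Perm.mul_apply, hu, dg_apply, mul_one]
    rw [k4, k5] at k3
    have k6 := (Prod.mk.inj k3).2
    rwa [he] at k6
  have hx : b (of 0) * b w = b w * b (of 0) := by
    apply hkey (of 0 * of 0)
    intro q
    rw [map_mul, Equiv.Perm.mul_apply]
    show Th 1 (b (of 0)) (b (of 1)) (of 0) (Th 1 (b (of 0)) (b (of 1)) (of 0) (0, q)) = _
    rw [Th_X, tX, mono_apply, mono_apply]
    simp [px0, px3]
  have hy : b (of 1) * b w = b w * b (of 1) := by
    apply hkey (of 1 * of 1)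
    intro q
    rw [map_mul, Equiv.Perm.mul_apply]
    show Th 1 (b (of 0)) (b (of 1)) (of 1) (Th 1 (b (of 0)) (b (of 1)) (of 1) (0, q)) = _
    rw [Th_Y, tY, mono_apply, mono_apply]
    simp [py0, py1]
  apply hK1
  intro u
  have hu : b u * b w = b w * b u := by
    induction u using FreeGroup.induction_on with
    | C1 => rw [map_one, one_mul, mul_one]
    | of i =>
      fin_cases i
      · exact hx
      · exact hy
    | inv_of i ih =>
      rw [map_inv]
      exact (Commute.inv_left (show Commute _ _ from ih)).eq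
    | mul a c iha ihc =>
      rw [map_mul]
      exact (Commute.mul_left (show Commute _ _ from iha) (show Commute _ _ from ihc)).eq
  have hN1 : b (w * u * w⁻¹ * u⁻¹) = 1 := by
    rw [map_mul, map_mul, map_mul, map_inv, map_inv, ← hu]
    group
  exact ((QuotientGroup.eq_one_iff _).1 hN1).1

end Pool.Agent.V5helper35.AS
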