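import Pool.Agent.N77.CS.ASM
import Pool.Agent.V5helper35.CA.Out

/-!
# Project AS, part 2: the congruence topology on groups of automorphisms

For a subgroup `G` of `Aut (F_n)` we consider ALL subgroups of finite index of `G`.
-/

set_option autoImplicit false

namespace Pool.Agent.V5helper35.AS

open Pool.Agent.R387.TC Pool.Agent.N77.CS

/-- Every subgroup `V` of finite index of the group `G` of automorphisms contains all elements of `G` which act
trivially modulo `K`, for some characteristic subgroup `K` of finite index. -/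
def CongG (n : ℕ) (G : Subgroup (MulAut (F n))) : Prop :=
  ∀ V : Subgroup (MulAut (F n)), V ≤ G → V.relIndex G ≠ 0 →
    ∃ K : Subgroup (F n), K.Characteristic ∧ K.FiniteIndex ∧ ∀ ψ ∈ G, Triv K ψ → ψ ∈ V

/-- what the induction proves -/
def OkG (n : ℕ) (G : Subgroup (MulAut (F n))) : Prop :=
  1 ≤ n ∧ CongG n G ∧ ∃ H : Subgroup (F n), Norm n (G : Set (MulAut (F n))) H ∧
    ∀ h ∈ H, MulAut.conj h ∈ G

/-- **STEP** (120 lines; adapt `Pool.Agent.R387.TC.cong_step`, use `norm_step` and `stab_step`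
unchanged).  The operation `step` for groups.

Proof.  `CongG`: let `V ≤ G'` be of finite index; let `N` be the normal core of `V.subgroupOf G'` in the
group `G'` (a normal subgroup of finite index of `G'`).  The homomorphisms `nu n : F n × F n →* Aut` and
`extHom n` restricted to `G` have values in `G'`, so they define homomorphisms `nu' : F n × F n →* G'` and
`ext' : G →* G'` (`MonoidHom.codRestrict`); apply `CongG n G` to the image in `Aut (F n)` of the comap of
`N` along `ext'` (`(N.comap ext').map G.subtype`), and copy the proof of `cong_step` with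
`P = (G' ⧸ N) × (G' ⧸ N)`.  The rest: `H' = H.map (inc n)`, `norm_step (⟨0, _⟩ : Fin n)`, and
`conj (inc n h) ∈ step G` (with `σ = conj h`, `u = h`, `v = h⁻¹`; or from `stab_step` applied to
`ψ = 1`). -/
def S_STEP : Prop := ∀ (n : ℕ) (G : Subgroup (MulAut (F n))) (G' : Subgroup (MulAut (F (n + 1)))),
  OkG n G → (∀ ψ, ψ ∈ G' ↔ ψ ∈ step (G : Set (MulAut (F n)))) → OkG (n + 1) G'

/-- **PROD** (150 lines; adapt the first half of `Pool.Agent.N77.CS.ASM.main`; the hypothesis
`S_WR` is proved by `Pool.Agent.N77.CS.WR.main`).  The operation `Prd` for groups.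

Proof.  `CongG`: let `V ≤ P` be of finite index, `N` the normal core of `V.subgroupOf P` in the group `P`.
The homomorphisms `PA k l` on `G`, `PB k l` on `T` and `MulAut.conj` on `F (k + l)` have values in `P` (`conj g` is
in `Prd G T` with `σ = 1`, `τ = 1`); restrict the codomain to `P` and copy the proof of the first half of
`ASM.main`.  The rest: `H = ⊤`, `norm_top`. -/
def S_PROD : Prop := ∀ (k l : ℕ) (G : Subgroup (MulAut (F k))) (T : Subgroup (MulAut (F l)))
  (P : Subgroup (MulAut (F (k + l)))), OkG k G → OkG l T →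
  (∀ ψ, ψ ∈ P ↔ ψ ∈ Prd (G : Set (MulAut (F k))) (T : Set (MulAut (F l)))) → OkG (k + l) P

/-- **MPOW** (adapt `Pool/Agent/R387/TC/Maln.lean`: replace `ZMod 2` by `ZMod (k + 1)`).  The malnormality
lemma for the `k`-th power of a generator, `k ≥ 1`.

Proof.  As `Pool.Agent.R387.TC.maln`, with the functions `Q → ZMod (k + 1)` and `x₀ ^ k` in the place of
`x₀`: the translation part of `x₀ ^ k` is `∑_{j < k} delta (q x₀ ^ j)`, so that in the proof of `malnormal`
(hypotheses `g * x₀ ^ k * g⁻¹` and `y` have the same translation part and the same image) one gets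
`e1 : cc (g x₀^k g⁻¹) = cc g + ∑_{j<k} delta (q (g * x₀^j)) - trans (q y) (cc g)`.  If `q g ∉ H0`: for every
`b ∈ H0` all points `b * q g` are outside `H0`, so `cc y` vanishes there; sum over `b ∈ H0`: `0 = c` where
`c` is the number of the `j < k` with `q (g * x₀^j) ∈ H0 * q g`; now this is the number of the `j < k` with
`q g * q x₀^j * (q g)⁻¹ ∈ H0`, which contains `j = 0`, so `1 ≤ c ≤ k`, hence `c ≠ 0` in `ZMod (k + 1)`.
 -/
def S_MPOW : Prop := ∀ (n : ℕ) (i0 : Fin n) (k : ℕ), 1 ≤ k →
  ∀ (L : Subgroup (F (n + 1))), L.Normal → L.FiniteIndex →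
    ∃ K : Subgroup (F (n + 1)), K.Characteristic ∧ K.FiniteIndex ∧ K ≤ L ∧
      ∀ g y, g * inc n (FreeGroup.of i0) ^ k * g⁻¹ * (inc n y)⁻¹ ∈ K →
        ∃ y', g⁻¹ * inc n y' ∈ L

/-- **CPOW** (uses MPOW; adapt `Pool.Agent.R387.TC.centre`).  Control of the centralizer of the
`k`-th powers.

Proof.  Let `P = F (n+1) / M`, `q` the projection.  Instead of `swapHom` use the action
`rotHom : F (n + 1) →* Equiv.Perm (P × ZMod (k + 1))` in which `inc n u` maps `(p, 0)` to
`(q (inc n u) * p, 0)` and fixes the points `(p, j)` with `j ≠ 0`, and `tt n` maps `(p, j)` to `(p, j + 1)`.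
Apply MPOW to `M ⊓ rotHom.ker`: if `g x^k g⁻¹ x^(-k) ∈ K` for all `x` (take `x = inc n (of i0)`) there is `y`
with `g⁻¹ * inc n y ∈ M ⊓ ker`; and `inc n y` commutes with `(tt n) ^ k` under `rotHom`, which is the rotation
`(p, j) ↦ (p, j + k) = (p, j - 1)`.  Evaluate at `(1, 0)`: `rot (inc y) (rot (tt^k) (1, 0)) = (1, -1)` (as `-1 ≠ 0` in
`ZMod (k + 1)`), and `rot (tt^k) (rot (inc y) (1, 0)) = (q (inc y), -1)`; so `q (inc y) = 1`, `q g = 1`. -/
def S_CPOW : Prop := ∀ (n : ℕ), 1 ≤ n → ∀ (k : ℕ), 1 ≤ k →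
  ∀ (M : Subgroup (F (n + 1))), M.Normal → M.FiniteIndex →
    ∃ K : Subgroup (F (n + 1)), K.Characteristic ∧ K.FiniteIndex ∧
      ∀ g : F (n + 1), (∀ x : F (n + 1), g * x ^ k * g⁻¹ * (x ^ k)⁻¹ ∈ K) → g ∈ M

/-- **COVA** (uses CPOW; 120 lines).  `L` is a subgroup of finite index of `F n`, `n ≥ 2`, `θ` an isomorphism of
`F m` with `L`.  If the automorphism `β` of `F m` extends to the automorphism `α` of `F n` and `β` acts on
`F m / K'` as the conjugation by `g'` then `α` acts on `F n / K₁` as the conjugation by `θ g'`.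

Proof.  Let `L₀ ≤ L` be the normal core, and `k ≥ 1` with `x ^ k ∈ L₀` for all `x` (the exponent or the order of
`F n / L₀`).  Let `K₂` be from CPOW (`n = (n - 1) + 1`) for `M = K₁` and the exponent `k`.  Let
`K' = core m (F m ⧸ (K₂.subgroupOf L).comap θ)` (see `Pool.Agent.R387.TC.core`, `core_char`, `core_fin`, `mem_core`;
it is characteristic of finite index and contained in `θ⁻¹ (K₂)`).  Put `g = θ g'`, `γ = conj g⁻¹ * α`.  For `l = θ x ∈ L`
we have `α l = θ (β x) ≡ θ (g' x g'⁻¹) = g l g⁻¹`, so `γ l ≡ l` modulo `K₂`.  For `u : F n` and `l ∈ L₀` we have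
`u l u⁻¹ ∈ L₀`, so `γ (u) l γ (u)⁻¹ ≡ γ (u) γ (l) γ (u)⁻¹ = γ (u l u⁻¹) ≡ u l u⁻¹` modulo `K₂`: the element `u⁻¹ γ (u)`
commutes modulo `K₂` with all `l ∈ L₀`, in particular with all `x ^ k`, so `u⁻¹ γ (u) ∈ K₁`, and
`α (u) ≡ g u g⁻¹` modulo `K₁`. -/
def S_COVA : Prop := ∀ (n m : ℕ) (L : Subgroup (F n)) (θ : F m ≃* L), 2 ≤ n → L.FiniteIndex →
  ∀ K₁ : Subgroup (F n), K₁.Normal → K₁.FiniteIndex →
    ∃ K' : Subgroup (F m), K'.Characteristic ∧ K'.FiniteIndex ∧
      ∀ (α : MulAut (F n)) (β : MulAut (F m)) (g' : F m),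
        (∀ x : F m, α (θ x : F n) = (θ (β x) : F n)) → ConjMod K' β g' →
          ConjMod K₁ α (θ g' : F n)

/-- **COVER** (uses COVA; 150 lines).  Covers: `L` is a subgroup of finite index of `F n`, `θ` an
isomorphism of `F m` with `L`, and `G'` consists of the automorphisms of `F m` which extend (via `θ`) to elements of
`G`.

Proof.  `1 ≤ m` because `L ≠ 1` (`F n` is infinite).

(b) `CongG m G'`: let `V ≤ G'` be of finite index.  `G_L = {α ∈ G : α (L) = L}` is a subgroup of finite index of `G`: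
it contains `G ⊓ trivSub K` with `K ≤ L` characteristic of finite index, see `trivSub_fin` (as `α l = (α l * l⁻¹) l`, the
elements of `trivSub K` and their inverses map `L` to `L`).  The restriction `r : G_L →* G'` (`θ (r α x) = α (θ x)`) is
onto.  `V₁ = r⁻¹ (V)` has finite index in `G_L`, hence in `G`.  (Without `r`: `V₁ = {α ∈ G | ∃ β ∈ V, ∀ x, α (θ x) =
θ (β x)}`; it is of finite index in `G` because it is of finite index in `G_L`.)  By `CongG n G` there is `K₁` such that
the elements of `G` trivial modulo `K₁` are in `V₁`.  Take `K'` from COVA for this `K₁` (with `g' = 1`); the automorphism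
`β` is determined by `α`.

(c) `Norm`: with `H' = (H.subgroupOf L).comap θ`.  Given `L'` normal of finite index in `F m`, let `L''` be a normal
subgroup of finite index of `F n` contained in `θ (L')` (the normal core of the image of `L'`, which has finite
index); in particular `L'' ≤ L`.  Norm for `G` and `L''` gives `K₁`; take `K'` from COVA, intersected with
`core m (F m ⧸ L') ≤ L'`.  If `β ∈ G'` acts as the conjugation by `g'` modulo `K'` and `α ∈ G` extends `β` then
`ConjMod K₁ α (θ g')` by COVA, so there is `h ∈ H` with `(θ g')⁻¹ * h ∈ L'' ≤ θ (L')`, so `h ∈ L`, `h = θ h'`,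
`h' ∈ H'`, `g'⁻¹ * h' ∈ L'`.  And `conj h' ∈ G'` for `h' ∈ H'` because `conj (θ h') ∈ G` extends it. -/
def S_COVER : Prop := ∀ (n m : ℕ) (G : Subgroup (MulAut (F n))) (G' : Subgroup (MulAut (F m)))
  (L : Subgroup (F n)) (θ : F m ≃* L), 2 ≤ n → L.FiniteIndex → OkG n G →
  (∀ β, β ∈ G' ↔ ∃ α ∈ G, ∀ x : F m, α (θ x : F n) = (θ (β x) : F n)) → OkG m G'

/-- **FIX** (60 lines).  Subgroups of finite index.

Proof.  `CongG`: a subgroup of finite index of `G'` has finite index in `G`.  `Norm`: let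
`H' = H ⊓ {h | conj h ∈ G'}`.  Let `K₁` be from `CongG n G` for `V = G'`.  Given `L` apply `Norm` for `G` to
`L ⊓ K₁` and intersect `K` with `K₁`; if `ψ ∈ G'` acts as the conjugation by `g` modulo `K` there is `h ∈ H` with
`g⁻¹ h ∈ L ⊓ K₁`; then `conj h⁻¹ * ψ ∈ G` acts trivially modulo `K₁` (compare the proof of
`out_of_norm`), so it is in `G'`, hence `conj h ∈ G'`. -/
def S_FIX : Prop := ∀ (n : ℕ) (G G' : Subgroup (MulAut (F n))), OkG n G → G' ≤ G →
  G'.relIndex G ≠ 0 → OkG n G'

/-- **OUT** (100 lines; compare `Pool.Agent.R387.TC.out_of_norm`).  From `Aut` to `Out`.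

Proof.  Let `A = G.map mk'`, `B ≤ A` of finite index, `V = G ⊓ B.comap mk'`, a subgroup of finite index of `G`
which contains the inner automorphisms in `G`.  `K₁` from `CongG` for `V`; `K ≤ K₁` from `Norm` for `K₁`.
If `[α] ∈ A` and `α` acts as the conjugation by `g₀` modulo `K` then `[α] = [ψ]` with `ψ ∈ G`, `α = ψ * conj c`,
so `ψ` acts as a conjugation by some `g` modulo `K`; there is `h ∈ H` with `g⁻¹ h ∈ K₁`; `conj h⁻¹ * ψ ∈ G` acts
trivially modulo `K₁`, so it is in `V`; and `conj h ∈ V`; so `ψ ∈ V` and `[α] = [ψ] ∈ B`. -/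
def S_OUT : Prop := ∀ (n : ℕ) (G : Subgroup (MulAut (F n))), OkG n G →
  ∀ B : Subgroup (MulAut (F n) ⧸ (MulAut.conj (G := F n)).range),
    B ≤ G.map (QuotientGroup.mk' (MulAut.conj (G := F n)).range) →
    B.relIndex (G.map (QuotientGroup.mk' (MulAut.conj (G := F n)).range)) ≠ 0 →
    ∃ K : Subgroup (F n), K.Characteristic ∧ K.FiniteIndex ∧
      ∀ α : MulAut (F n), (α : MulAut (F n) ⧸ (MulAut.conj (G := F n)).range) ∈
        G.map (QuotientGroup.mk' (MulAut.conj (G := F n)).range) →
        (∃ g, ConjMod K α g) → (α : MulAut (F n) ⧸ (MulAut.conj (G := F n)).range) ∈ B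

/-- **FROM** (100 lines; adapt `Pool.Agent.R387.TC.cong_of_out`).  From `Out` to `Aut`: if all
subgroups of finite index of the subgroup `A` of `Out (F_m)`, `m ≥ 2`, are congruence subgroups, the same
holds for its preimage `G` in `Aut (F_m)`.

Proof.  `m = n + 1`.  `Norm`: `H = ⊤`, `norm_top`.  `CongG`: let `V ≤ G` be of finite index, `N` the normal core of
`V.subgroupOf G` in the group `G` (`conj` has values in `G`).  `M = {g | conj g ∈ N}` is a normal subgroup of finite
index of `F m`; `centre` gives `M2` characteristic of finite index such that the elements central modulo `M2` are in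
`M`.  `N2 = N ⊓ trivSub M2` (inside `G`), a normal subgroup of finite index of `G`.  Let `B` be its image in `A`: a
subgroup of finite index of `A`.  The hypothesis gives `K`; take `K ⊓ M2`.  If `ψ ∈ G` acts trivially modulo
`K ⊓ M2` then `[ψ] ∈ B`, so `ψ = v * conj g` with `v ∈ N2`, and `conj g = v⁻¹ ψ ∈ trivSub M2`, so `g` is central
modulo `M2`, `conj g ∈ N`, `ψ ∈ V`. -/
def S_FROM : Prop := ∀ (m : ℕ), 2 ≤ m →
  ∀ A : Subgroup (MulAut (F m) ⧸ (MulAut.conj (G := F m)).range),
  (∀ B : Subgroup (MulAut (F m) ⧸ (MulAut.conj (G := F m)).range), B ≤ A → B.relIndex A ≠ 0 →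
    ∃ K : Subgroup (F m), K.Characteristic ∧ K.FiniteIndex ∧
      ∀ α : MulAut (F m), (α : MulAut (F m) ⧸ (MulAut.conj (G := F m)).range) ∈ A →
        (∃ g, ConjMod K α g) → (α : MulAut (F m) ⧸ (MulAut.conj (G := F m)).range) ∈ B) →
  OkG m (A.comap (QuotientGroup.mk' (MulAut.conj (G := F m)).range))

end Pool.Agent.V5helper35.AS
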