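import Pool.Agent.V5helper35.AS.Defs

/-!
# Project AS: monomial actions of `F_2`
-/

set_option autoImplicit false
set_option linter.unusedSimpArgs false

namespace Pool.Agent.V5helper35.AS

open FreeGroup (of)

section

variable {W : Type} [Group W]

/-- the monomial permutation of `Fin 4 × W` given by a permutation `π` and a function `d` -/
def mono (π : Equiv.Perm (Fin 4)) (d : Fin 4 → W) : Equiv.Perm (Fin 4 × W) where
  toFun p := (π p.1, d p.1 * p.2)
  invFun p := (π.symm p.1, (d (π.symm p.1))⁻¹ * p.2)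
  left_inv p := by simp
  right_inv p := by simp

theorem mono_apply (π : Equiv.Perm (Fin 4)) (d : Fin 4 → W) (p : Fin 4 × W) :
    mono π d p = (π p.1, d p.1 * p.2) := rfl

theorem mono_mul (π π' : Equiv.Perm (Fin 4)) (d d' : Fin 4 → W) :
    mono π d * mono π' d' = mono (π * π') (fun i => d (π' i) * d' i) := by
  ext p <;> simp [mono_apply, mul_assoc]

theorem mono_one : mono 1 (fun _ => (1 : W)) = 1 := by
  ext p <;> simp [mono_apply]

/-- the permutation of the fibres by `x` -/
def px : Equiv.Perm (Fin 4) := Equiv.swap 0 3 * Equiv.swap 1 2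
/-- the permutation of the fibres by `y` -/
def py : Equiv.Perm (Fin 4) := Equiv.swap 0 1 * Equiv.swap 2 3

/-- the action of `x` -/
def tX (c A _B : W) : Equiv.Perm (Fin 4 × W) := mono px ![A, A⁻¹ * c⁻¹, 1, c]
/-- the action of `y` -/
def tY (c _A B : W) : Equiv.Perm (Fin 4 × W) := mono py ![c, B, c⁻¹ * B⁻¹, 1]

/-- the action of `x⁻¹` -/
def tX' (c A _B : W) : Equiv.Perm (Fin 4 × W) := mono px ![c⁻¹, 1, c * A, A⁻¹]
/-- the action of `y⁻¹` -/
def tY' (c _A B : W) : Equiv.Perm (Fin 4 × W) := mono py ![B⁻¹, c⁻¹, 1, B * c]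

theorem px_px : px * px = 1 := by decide
theorem py_py : py * py = 1 := by decide

theorem mono_eq {π π' : Equiv.Perm (Fin 4)} {d d' : Fin 4 → W} (h : π = π')
    (h0 : d 0 = d' 0) (h1 : d 1 = d' 1) (h2 : d 2 = d' 2) (h3 : d 3 = d' 3) :
    mono π d = mono π' d' := by
  subst h
  have : d = d' := by
    funext i
    fin_cases i
    · exact h0
    · exact h1
    · exact h2
    · exact h3
  rw [this]

theorem px0 : px 0 = 3 := by decide
theorem px1 : px 1 = 2 := by decide
theorem px2 : px 2 = 1 := by decide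
theorem px3 : px 3 = 0 := by decide
theorem py0 : py 0 = 1 := by decide
theorem py1 : py 1 = 0 := by decide
theorem py2 : py 2 = 3 := by decide
theorem py3 : py 3 = 2 := by decide

theorem tX_inv (c A B : W) : (tX c A B)⁻¹ = tX' c A B := by
  rw [inv_eq_iff_mul_eq_one, tX, tX', mono_mul, ← mono_one]
  apply mono_eq
  · exact px_px
  all_goals simp [px0, px1, px2, px3]

theorem tY_inv (c A B : W) : (tY c A B)⁻¹ = tY' c A B := by
  rw [inv_eq_iff_mul_eq_one, tY, tY', mono_mul, ← mono_one]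
  apply mono_eq
  · exact py_py
  all_goals simp [py0, py1, py2, py3]

/-- the monomial action of `F` -/
def Th (c A B : W) : F →* Equiv.Perm (Fin 4 × W) := mk2 (tX c A B) (tY c A B)

/-- a diagonal permutation -/
def dg (d : Fin 4 → W) : Equiv.Perm (Fin 4 × W) := mono 1 d

theorem dg_apply (d : Fin 4 → W) (p : Fin 4 × W) : dg d p = (p.1, d p.1 * p.2) := rfl

theorem dg_inv (d : Fin 4 → W) : (dg d)⁻¹ = dg (fun i => (d i)⁻¹) := by
  rw [inv_eq_iff_mul_eq_one, dg, dg, mono_mul, ← mono_one]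
  apply mono_eq
  · rfl
  all_goals simp

theorem dg_mul (d d' : Fin 4 → W) : dg d * dg d' = dg (fun i => d i * d' i) := by
  rw [dg, dg, mono_mul]
  rfl

theorem intertwine {G : Type} [Group G] (φ ψ : F →* G) (D : G)
    (h0 : φ (of 0) * D = D * ψ (of 0)) (h1 : φ (of 1) * D = D * ψ (of 1)) (u : F) :
    φ u * D = D * ψ u := by
  have h : φ = (MulAut.conj D).toMonoidHom.comp ψ := by
    apply hom_ext2
    · show φ (of 0) = D * ψ (of 0) * D⁻¹
      rw [← h0, mul_inv_cancel_right]
    · show φ (of 1) = D * ψ (of 1) * D⁻¹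
      rw [← h1, mul_inv_cancel_right]
  rw [h]
  show D * ψ u * D⁻¹ * D = D * ψ u
  rw [inv_mul_cancel_right]

theorem Th_X (c A B : W) : Th c A B (of 0) = tX c A B := mk2_X _ _
theorem Th_Y (c A B : W) : Th c A B (of 1) = tY c A B := mk2_Y _ _

theorem th_ze (c A B : W) (u : F) :
    Th c A B (ze u) * dg ![c, B, A⁻¹ * c⁻¹ * B⁻¹, A] =
      dg ![c, B, A⁻¹ * c⁻¹ * B⁻¹, A] * Th c A B u := by
  refine intertwine ((Th c A B).comp ze.toMonoidHom) (Th c A B) _ ?_ ?_ u
  · show Th c A B (ze (of 0)) * _ = _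
    rw [ze_X]
    simp only [map_mul, map_inv, Th_X, Th_Y, tX_inv, tY_inv]
    simp only [tX, tY, tX', tY', dg, mono_mul]
    apply mono_eq
    · decide
    all_goals simp [px0, px1, px2, px3, py0, py1, py2, py3, mul_assoc]
  · show Th c A B (ze (of 1)) * _ = _
    rw [ze_Y]
    simp only [map_mul, map_inv, Th_X, Th_Y, tX_inv, tY_inv]
    simp only [tX, tY, tX', tY', dg, mono_mul]
    apply mono_eq
    · decide
    all_goals simp [px0, px1, px2, px3, py0, py1, py2, py3, mul_assoc]

theorem th_dl (A B : W) (u : F) :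
    Th 1 A B (dl u) * dg ![A, 1, 1, A] = dg ![A, 1, 1, A] * Th 1 A B u := by
  refine intertwine ((Th 1 A B).comp dl.toMonoidHom) (Th 1 A B) _ ?_ ?_ u
  · show Th 1 A B (dl (of 0)) * _ = _
    rw [dl_X]
    simp only [map_mul, map_inv, Th_X, Th_Y, tX_inv, tY_inv]
    simp only [tX, tY, tX', tY', dg, mono_mul]
    apply mono_eq
    · decide
    all_goals simp [px0, px1, px2, px3, py0, py1, py2, py3, mul_assoc]
  · show Th 1 A B (dl (of 1)) * _ = _
    rw [dl_Y]
    simp only [map_mul, map_inv, Th_X, Th_Y, tX_inv, tY_inv]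
    simp only [tX, tY, tX', tY', dg, mono_mul]
    apply mono_eq
    · decide
    all_goals simp [px0, px1, px2, px3, py0, py1, py2, py3, mul_assoc]

theorem th_ep (A B : W) (u : F) :
    Th 1 A B (ep u) * dg ![B, B, 1, 1] = dg ![B, B, 1, 1] * Th 1 A B u := by
  refine intertwine ((Th 1 A B).comp ep.toMonoidHom) (Th 1 A B) _ ?_ ?_ u
  · show Th 1 A B (ep (of 0)) * _ = _
    rw [ep_X]
    simp only [map_mul, map_inv, Th_X, Th_Y, tX_inv, tY_inv]
    simp only [tX, tY, tX', tY', dg, mono_mul]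
    apply mono_eq
    · decide
    all_goals simp [px0, px1, px2, px3, py0, py1, py2, py3, mul_assoc]
  · show Th 1 A B (ep (of 1)) * _ = _
    rw [ep_Y]
    simp only [map_mul, map_inv, Th_X, Th_Y, tX_inv, tY_inv]
    simp only [tX, tY, tX', tY', dg, mono_mul]
    apply mono_eq
    · decide
    all_goals simp [px0, px1, px2, px3, py0, py1, py2, py3, mul_assoc]

end

end Pool.Agent.V5helper35.AS
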